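import Pool.Agent.K3h17.BT.Geo

set_option autoImplicit false

/-!
The complexity of the billiard in a typical convex polygon.
-/

namespace Pool.Agent.K3h17.BT

open MeasureTheory Set Complex Filter Topology Pool.Agent.W780.PG Pool.Agent.W780.BB
  Pool.Agent.TH225.BL Pool.Agent.K3h17.BK

open scoped ComplexConjugate Real

variable {n : ℕ} {p : Fin (n + 3) → ℂ}

theorem typ_count (hp : IsConvexPolygon p) (hT : Typical p) : ∃ C : ℝ, 0 < C ∧ ∃ m₀ : ℕ,
    ∀ m ≥ m₀, ∀ a b : ℝ,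
      (words p m (bx a b (Real.exp (-(C * ((m : ℝ) + 1) ^ 2))))).ncard ≤ mb n m := by
  obtain ⟨C, hC, m₀, h⟩ := typ_box hT
  refine ⟨C, hC, m₀, fun m hm a b => ?_⟩
  obtain ⟨x₀, hx₀⟩ := h m hm a b
  exact (Set.ncard_le_ncard (words_mono hx₀) (words_finite m _)).trans (local_count hp m x₀)

/-- The scale function. -/
noncomputable def sc (k : ℕ) : ℝ := (k : ℝ) * Real.log ((k : ℝ) + 1)

theorem sc_ge {k : ℕ} (hk : 1 ≤ k) : 1 / 2 ≤ sc k := by
  unfold sc
  have h1 : (1 : ℝ) ≤ k := by exact_mod_cast hk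
  have h2 : Real.log 2 ≤ Real.log ((k : ℝ) + 1) := Real.log_le_log (by norm_num) (by linarith)
  have h3 := Real.log_two_gt_d9
  nlinarith

/-- The block length. -/
noncomputable def bl (k : ℕ) : ℕ := ⌈sc k ^ (1 / 3 : ℝ)⌉₊

theorem bl_ge (k : ℕ) : sc k ^ (1 / 3 : ℝ) ≤ bl k := Nat.le_ceil _

theorem sc_third_ge {k : ℕ} (hk : 1 ≤ k) : 1 / 2 ≤ sc k ^ (1 / 3 : ℝ) := by
  have h1 := sc_ge hk
  have h2 : (1 / 2 : ℝ) ^ (1 / 3 : ℝ) ≤ sc k ^ (1 / 3 : ℝ) :=
    Real.rpow_le_rpow (by norm_num) h1 (by norm_num)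
  have h3 : (1 / 2 : ℝ) ≤ (1 / 2 : ℝ) ^ (1 / 3 : ℝ) := by
    have := Real.rpow_le_rpow_of_exponent_ge (show (0 : ℝ) < 1 / 2 by norm_num) (by norm_num)
      (show (1 / 3 : ℝ) ≤ 1 by norm_num)
    rwa [Real.rpow_one] at this
  linarith

theorem bl_le {k : ℕ} (hk : 1 ≤ k) : (bl k : ℝ) ≤ 3 * sc k ^ (1 / 3 : ℝ) := by
  have h1 := sc_third_ge hk
  have h2 : (bl k : ℝ) < sc k ^ (1 / 3 : ℝ) + 1 := Nat.ceil_lt_add_one (by linarith)
  linarith

theorem bl_pos {k : ℕ} (hk : 1 ≤ k) : 1 ≤ bl k := by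
  have h1 := sc_third_ge hk
  have h2 := bl_ge k
  have h3 : (0 : ℝ) < bl k := by linarith
  exact_mod_cast h3

/-- The logarithm of the complexity, up to a constant factor. -/
noncomputable def lc (k : ℕ) : ℝ := sc k ^ (2 / 3 : ℝ)

theorem third_sq {k : ℕ} (hk : 1 ≤ k) : (sc k ^ (1 / 3 : ℝ)) ^ 2 = lc k := by
  have h1 := sc_ge hk
  unfold lc
  rw [← Real.rpow_natCast, ← Real.rpow_mul (by linarith)]
  norm_num

theorem lc_ge {k : ℕ} (hk : 1 ≤ k) : 1 / 4 ≤ lc k := by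
  rw [← third_sq hk]
  have := sc_third_ge hk
  nlinarith

theorem log_le_lc {k : ℕ} (hk : 1 ≤ k) : Real.log ((k : ℝ) + 1) * k ≤ (bl k : ℝ) * lc k := by
  have h1 := sc_ge hk
  have h2 : Real.log ((k : ℝ) + 1) * k = sc k ^ (1 / 3 : ℝ) * lc k := by
    unfold lc
    rw [← Real.rpow_add (by linarith)]
    norm_num
    unfold sc
    ring
  rw [h2]
  have h3 := lc_ge hk
  have h4 := bl_ge k
  gcongr

theorem aux1 (a l : ℝ) (ha : 0 ≤ a) (hl : 1 / 4 ≤ l) : a ≤ 4 * a * l := by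
  calc a = 4 * a * (1 / 4) := by ring
    _ ≤ 4 * a * l := by gcongr

theorem aux2 (t : ℝ) (ht : 1 / 2 ≤ t) : t ≤ 2 * t ^ 2 := by nlinarith

theorem aux3 (a b l : ℝ) (ha : 0 ≤ a) (hl : 0 ≤ l) (h : b ≤ 6 * l) : a * b ≤ 12 * a * l := by
  have h1 : a * b ≤ a * (6 * l) := mul_le_mul_of_nonneg_left h ha
  have : 0 ≤ a * l := mul_nonneg ha hl
  linarith

theorem aux4 (k m g l : ℝ) (hm : 0 ≤ k / m) (hg : 1 / 2 ≤ g) (h : g * (k / m) ≤ l) :
    k / m ≤ 2 * l := by nlinarith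

theorem aux5 (k : ℕ) (hk : 1 ≤ k) : sc k ≤ ((k : ℝ) + 1) ^ 2 := by
  have hkR : (1 : ℝ) ≤ k := by exact_mod_cast hk
  unfold sc
  have := Real.log_le_sub_one_of_pos (show (0 : ℝ) < (k : ℝ) + 1 by linarith)
  have h1 : (k : ℝ) * Real.log ((k : ℝ) + 1) ≤ k * k := by
    gcongr
    linarith
  nlinarith

theorem aux6 (k : ℕ) (hk : 1 ≤ k) : Real.log (bl k) ≤ 4 * Real.log ((k : ℝ) + 1) := by
  have hkR : (1 : ℝ) ≤ k := by exact_mod_cast hk
  have hm0 : (1 : ℝ) ≤ bl k := by exact_mod_cast bl_pos hk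
  have hmk : (bl k : ℝ) ≤ ((k : ℝ) + 1) ^ 4 := by
    have g2 : sc k ^ (1 / 3 : ℝ) ≤ (((k : ℝ) + 1) ^ 2) := by
      have g3 : sc k ^ (1 / 3 : ℝ) ≤ (((k : ℝ) + 1) ^ 2) ^ (1 / 3 : ℝ) :=
        Real.rpow_le_rpow (by linarith [sc_ge hk]) (aux5 k hk) (by norm_num)
      refine g3.trans ?_
      have g4 : (1 : ℝ) ≤ ((k : ℝ) + 1) ^ 2 := by nlinarith
      have := Real.rpow_le_rpow_of_exponent_le g4 (show (1 / 3 : ℝ) ≤ 1 by norm_num)
      rwa [Real.rpow_one] at this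
    have g5 : (3 : ℝ) ≤ ((k : ℝ) + 1) ^ 2 := by nlinarith
    calc (bl k : ℝ) ≤ 3 * sc k ^ (1 / 3 : ℝ) := bl_le hk
      _ ≤ ((k : ℝ) + 1) ^ 2 * ((k : ℝ) + 1) ^ 2 := by
        apply mul_le_mul g5 g2 _ (by positivity)
        linarith [sc_third_ge hk]
      _ = ((k : ℝ) + 1) ^ 4 := by ring
  calc Real.log (bl k) ≤ Real.log (((k : ℝ) + 1) ^ 4) := Real.log_le_log (by linarith) hmk
    _ = 4 * Real.log ((k : ℝ) + 1) := by rw [Real.log_pow]; norm_num

theorem aux7 (a k M l : ℝ) (ha : 0 ≤ a) (h : k ≤ 2 * M) (hM : 0 ≤ M) (hl : 1 / 4 ≤ l) :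
    k * a ≤ 4 * a * (8 * M) * l := by
  have h1 : k * a ≤ 2 * M * a := mul_le_mul_of_nonneg_right h ha
  have h2 : 0 ≤ M * a := mul_nonneg hM ha
  have h3 : 4 * a * (8 * M) * (1 / 4) ≤ 4 * a * (8 * M) * l := by gcongr
  linarith

/-- The main estimate for words of length `k`. -/
theorem words_le (hp : IsConvexPolygon p) (hT : Typical p) :
    ∃ C : ℝ, 0 < C ∧ ∀ k : ℕ, 1 ≤ k → ((words p k univ).ncard : ℝ) ≤ Real.exp (C * lc k) := by
  obtain ⟨C, hC, m₀, hcount⟩ := typ_count hp hT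
  have hR := Rb_nonneg (p := p)
  have hpi := Real.pi_pos
  have hn : (0 : ℝ) ≤ n := n.cast_nonneg
  set c₁ := 2 * ((n : ℝ) + 4) * (3 + 4 * Rb p) with hc₁
  have hc₁1 : 1 ≤ c₁ := by rw [hc₁]; nlinarith
  set c₂ := (2 * π + 1) * (2 * Rb p + 1) with hc₂
  have hc₂1 : 1 ≤ c₂ := by rw [hc₂]; nlinarith
  have hL1 : 0 ≤ Real.log c₁ := Real.log_nonneg hc₁1
  have hL2 : 0 ≤ Real.log c₂ := Real.log_nonneg hc₂1
  have hL3 : 0 ≤ Real.log ((n : ℝ) + 3) := Real.log_nonneg (by linarith)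
  -- large `k`
  have hlarge : ∀ k : ℕ, 1 ≤ k → m₀ ≤ bl k → ((words p k univ).ncard : ℝ) ≤
      Real.exp ((50 * C + 4 * Real.log c₂ + 2 * Real.log c₁ + 8 + 12 * Real.log ((n : ℝ) + 3)) *
        lc k) := by
    intro k hk hm
    set m := bl k with hmdef
    have hm1 : 1 ≤ m := bl_pos hk
    have hmR : (1 : ℝ) ≤ m := by exact_mod_cast hm1
    have hkR : (1 : ℝ) ≤ k := by exact_mod_cast hk
    have hlc := lc_ge hk
    set δ := Real.exp (-(C * ((m : ℝ) + 1) ^ 2)) with hδ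
    have hδ0 : 0 < δ := Real.exp_pos _
    have hδ1 : δ ≤ 1 := by
      rw [hδ]
      apply Real.exp_le_one_iff.2
      have : 0 ≤ C * ((m : ℝ) + 1) ^ 2 := by positivity
      linarith
    have h1 := words_pow hδ0 (hcount m hm) (k % m) (k / m)
    rw [Nat.div_add_mod] at h1
    have h2 := words_all hδ0 hk h1
    have h3 : ((words p k univ).ncard : ℝ) ≤ ((⌊2 * π / δ⌋₊ : ℝ) + 1) * (((⌊2 * Rb p / δ⌋₊ : ℝ) + 1) *
        (((mb n m * db p m : ℕ) : ℝ) ^ (k / m) * ((n : ℝ) + 3) ^ (k % m))) := by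
      exact_mod_cast h2
    refine h3.trans ?_
    -- the factors
    have e1 : (⌊2 * π / δ⌋₊ : ℝ) + 1 ≤ (2 * π + 1) / δ := by
      have : (⌊2 * π / δ⌋₊ : ℝ) ≤ 2 * π / δ := Nat.floor_le (by positivity)
      have h5 : 1 ≤ 1 / δ := by rw [le_div_iff₀ hδ0]; linarith
      rw [add_div]
      linarith
    have e2 : (⌊2 * Rb p / δ⌋₊ : ℝ) + 1 ≤ (2 * Rb p + 1) / δ := by
      have : (⌊2 * Rb p / δ⌋₊ : ℝ) ≤ 2 * Rb p / δ := Nat.floor_le (by positivity)
      have h5 : 1 ≤ 1 / δ := by rw [le_div_iff₀ hδ0]; linarith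
      rw [add_div]
      linarith
    have e3 : ((mb n m * db p m : ℕ) : ℝ) ^ (k / m) ≤
        Real.exp ((Real.log c₁ + 2 * Real.log m) * (k / m)) := by
      have h5 := poly_bound p m hm1
      rw [← hc₁] at h5
      have h6 : c₁ * (m : ℝ) ^ 2 = Real.exp (Real.log c₁ + 2 * Real.log m) := by
        rw [Real.exp_add, Real.exp_log (by linarith)]
        congr 1
        have : 2 * Real.log m = ((2 : ℕ) : ℝ) * Real.log m := by norm_num
        rw [this, Real.exp_nat_mul, Real.exp_log (by linarith)]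
      have h7 : 0 ≤ Real.log c₁ + 2 * Real.log m := by
        have := Real.log_nonneg hmR
        linarith
      calc ((mb n m * db p m : ℕ) : ℝ) ^ (k / m) ≤
          (Real.exp (Real.log c₁ + 2 * Real.log m)) ^ (k / m) := by
            rw [← h6]
            gcongr
        _ = Real.exp (((k / m : ℕ) : ℝ) * (Real.log c₁ + 2 * Real.log m)) := by
            rw [← Real.exp_nat_mul]
        _ ≤ Real.exp ((Real.log c₁ + 2 * Real.log m) * (k / m)) := by
            apply Real.exp_le_exp.2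
            rw [mul_comm]
            gcongr
            exact Nat.cast_div_le
    have e4 : ((n : ℝ) + 3) ^ (k % m) ≤ Real.exp (Real.log ((n : ℝ) + 3) * m) := by
      have h5 : ((n : ℝ) + 3) ^ (k % m) ≤ ((n : ℝ) + 3) ^ m :=
        pow_le_pow_right₀ (by linarith) (Nat.mod_lt _ (by omega)).le
      refine h5.trans (le_of_eq ?_)
      rw [mul_comm, Real.exp_nat_mul, Real.exp_log (by linarith)]
    have e5 : (2 * π + 1) / δ * ((2 * Rb p + 1) / δ) =
        Real.exp (Real.log c₂ + 2 * (C * ((m : ℝ) + 1) ^ 2)) := by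
      rw [Real.exp_add, Real.exp_log (by linarith), hδ, hc₂, Real.exp_neg]
      have : 2 * (C * ((m : ℝ) + 1) ^ 2) = C * ((m : ℝ) + 1) ^ 2 + C * ((m : ℝ) + 1) ^ 2 := by ring
      rw [this, Real.exp_add]
      field_simp
    have hfac : ((⌊2 * π / δ⌋₊ : ℝ) + 1) * (((⌊2 * Rb p / δ⌋₊ : ℝ) + 1) *
        (((mb n m * db p m : ℕ) : ℝ) ^ (k / m) * ((n : ℝ) + 3) ^ (k % m))) ≤
        Real.exp ((Real.log c₂ + 2 * (C * ((m : ℝ) + 1) ^ 2)) +
          ((Real.log c₁ + 2 * Real.log m) * (k / m) + Real.log ((n : ℝ) + 3) * m)) := by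
      calc ((⌊2 * π / δ⌋₊ : ℝ) + 1) * (((⌊2 * Rb p / δ⌋₊ : ℝ) + 1) *
          (((mb n m * db p m : ℕ) : ℝ) ^ (k / m) * ((n : ℝ) + 3) ^ (k % m)))
          ≤ ((2 * π + 1) / δ) * (((2 * Rb p + 1) / δ) *
            (Real.exp ((Real.log c₁ + 2 * Real.log m) * (k / m)) *
              Real.exp (Real.log ((n : ℝ) + 3) * m))) := by gcongr
        _ = ((2 * π + 1) / δ * ((2 * Rb p + 1) / δ)) *
            (Real.exp ((Real.log c₁ + 2 * Real.log m) * (k / m)) *
              Real.exp (Real.log ((n : ℝ) + 3) * m)) := by ring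
        _ = _ := by rw [e5, ← Real.exp_add, ← Real.exp_add]
    refine hfac.trans (Real.exp_le_exp.2 ?_)
    -- the exponents
    set t := sc k ^ (1 / 3 : ℝ) with ht
    have ht1 : 1 / 2 ≤ t := sc_third_ge hk
    have htl : t ^ 2 = lc k := third_sq hk
    have hmt : (m : ℝ) ≤ 3 * t := bl_le hk
    have f1 : C * ((m : ℝ) + 1) ^ 2 ≤ 25 * C * lc k := by
      have : ((m : ℝ) + 1) ^ 2 ≤ (5 * t) ^ 2 := by
        gcongr
        linarith
      calc C * ((m : ℝ) + 1) ^ 2 ≤ C * (5 * t) ^ 2 := by gcongr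
        _ = 25 * C * lc k := by rw [← htl]; ring
    have f2 : Real.log c₂ ≤ 4 * Real.log c₂ * lc k := aux1 _ _ hL2 hlc
    have f3 : Real.log ((n : ℝ) + 3) * m ≤ 12 * Real.log ((n : ℝ) + 3) * lc k := by
      have h9 := aux2 t ht1
      exact aux3 _ _ _ hL3 (by linarith) (by rw [← htl]; linarith)
    have hkm : Real.log ((k : ℝ) + 1) * (k / m) ≤ lc k := by
      have := log_le_lc hk
      rw [← hmdef] at this
      rw [mul_div_assoc', div_le_iff₀ (by linarith)]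
      linarith
    have hl2 : 1 / 2 ≤ Real.log ((k : ℝ) + 1) := by
      have h2 : Real.log 2 ≤ Real.log ((k : ℝ) + 1) := Real.log_le_log (by norm_num) (by linarith)
      have h3 := Real.log_two_gt_d9
      linarith
    have hkm0 : (0 : ℝ) ≤ k / m := by positivity
    have f4 : Real.log c₁ * (k / m) ≤ 2 * Real.log c₁ * lc k := by
      have h9 : (k : ℝ) / m ≤ 2 * lc k := aux4 _ _ _ _ hkm0 hl2 hkm
      calc Real.log c₁ * (k / m) ≤ Real.log c₁ * (2 * lc k) := mul_le_mul_of_nonneg_left h9 hL1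
        _ = _ := by ring
    have f5 : 2 * Real.log m * (k / m) ≤ 8 * lc k := by
      have hlm : Real.log m ≤ 4 * Real.log ((k : ℝ) + 1) := aux6 k hk
      calc 2 * Real.log m * (k / m) ≤ 2 * (4 * Real.log ((k : ℝ) + 1)) * (k / m) := by gcongr
        _ = 8 * (Real.log ((k : ℝ) + 1) * (k / m)) := by ring
        _ ≤ 8 * lc k := by gcongr
    have f6 : (Real.log c₁ + 2 * Real.log m) * (k / m) =
        Real.log c₁ * (k / m) + 2 * Real.log m * (k / m) := by ring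
    rw [f6]
    linarith
  -- all `k`
  set C₁ := 50 * C + 4 * Real.log c₂ + 2 * Real.log c₁ + 8 + 12 * Real.log ((n : ℝ) + 3) with hC₁
  have hC₁0 : 0 < C₁ := by positivity
  -- small `k`
  refine ⟨C₁ + 4 * Real.log ((n : ℝ) + 3) * (8 * ((m₀ : ℝ) + 1) ^ 3), by positivity, fun k hk => ?_⟩
  have hlc := lc_ge hk
  by_cases hm : m₀ ≤ bl k
  · refine (hlarge k hk hm).trans (Real.exp_le_exp.2 ?_)
    have : 0 ≤ 4 * Real.log ((n : ℝ) + 3) * (8 * ((m₀ : ℝ) + 1) ^ 3) * lc k := by positivity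
    rw [add_mul]
    linarith
  · push Not at hm
    have hkR : (1 : ℝ) ≤ k := by exact_mod_cast hk
    have h1 : ((words p k univ).ncard : ℝ) ≤ ((n : ℝ) + 3) ^ k := by
      have := words_triv (p := p) k univ
      exact_mod_cast this
    have h2 : ((n : ℝ) + 3) ^ k = Real.exp (k * Real.log ((n : ℝ) + 3)) := by
      rw [Real.exp_nat_mul, Real.exp_log (by linarith)]
    have h3 : (k : ℝ) ≤ 2 * sc k := by
      unfold sc
      have h2 : Real.log 2 ≤ Real.log ((k : ℝ) + 1) := Real.log_le_log (by norm_num) (by linarith)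
      have h3 := Real.log_two_gt_d9
      nlinarith
    have h4 : sc k ≤ (m₀ : ℝ) ^ 3 := by
      have g1 : sc k ^ (1 / 3 : ℝ) ≤ m₀ := by
        have : (bl k : ℝ) ≤ m₀ := by exact_mod_cast hm.le
        exact (bl_ge k).trans this
      have g2 : (sc k ^ (1 / 3 : ℝ)) ^ 3 = sc k := by
        rw [← Real.rpow_natCast, ← Real.rpow_mul (by linarith [sc_ge hk])]
        norm_num
      rw [← g2]
      have : 0 ≤ sc k ^ (1 / 3 : ℝ) := by linarith [sc_third_ge hk]
      gcongr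
    rw [h2] at h1
    refine h1.trans (Real.exp_le_exp.2 ?_)
    have h5 : (k : ℝ) ≤ 2 * ((m₀ : ℝ) + 1) ^ 3 := by
      have : (m₀ : ℝ) ^ 3 ≤ ((m₀ : ℝ) + 1) ^ 3 := by gcongr; linarith
      linarith
    have h6 : (k : ℝ) * Real.log ((n : ℝ) + 3) ≤
        4 * Real.log ((n : ℝ) + 3) * (8 * ((m₀ : ℝ) + 1) ^ 3) * lc k :=
      aux7 _ _ _ _ hL3 h5 (by positivity) hlc
    have h9 : 0 ≤ C₁ * lc k := by positivity
    linarith

theorem sc_mono {k l : ℕ} (h : k ≤ l) : sc k ≤ sc l := by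
  unfold sc
  have h1 : (k : ℝ) ≤ l := by exact_mod_cast h
  have h0 : (0 : ℝ) ≤ k := k.cast_nonneg
  have h2 : Real.log ((k : ℝ) + 1) ≤ Real.log ((l : ℝ) + 1) :=
    Real.log_le_log (by linarith) (by linarith)
  have h3 : 0 ≤ Real.log ((k : ℝ) + 1) := Real.log_nonneg (by linarith)
  nlinarith

theorem lc_mono {k l : ℕ} (hk : 1 ≤ k) (h : k ≤ l) : lc k ≤ lc l :=
  Real.rpow_le_rpow (by linarith [sc_ge hk]) (sc_mono h) (by norm_num)

open Classical in
/-- The complexity of a typical convex polygon. -/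
theorem itin_le (hp : IsConvexPolygon p) (hT : Typical p) :
    ∃ C : ℝ, 0 < C ∧ ∀ k : ℕ, 1 ≤ k → ((itin p k).ncard : ℝ) ≤ Real.exp (C * lc k) := by
  obtain ⟨C, hC, h⟩ := words_le hp hT
  refine ⟨C + 12, by positivity, fun k hk => ?_⟩
  have hlc := lc_ge hk
  have hkR : (1 : ℝ) ≤ k := by exact_mod_cast hk
  have hsub : itin p k ⊆ (((Finset.range (k + 1)).biUnion fun l =>
      (words_finite (p := p) l univ).toFinset : Finset _) : Set (List (Fin (n + 3)))) := by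
    rintro w ⟨hw, z, hz, A, hch⟩
    rw [Finset.mem_coe, Finset.mem_biUnion]
    refine ⟨w.length, Finset.mem_range.2 (by omega), ?_⟩
    rw [Set.Finite.mem_toFinset]
    obtain ⟨x, hx⟩ := itin_RW hp hch
    exact ⟨rfl, x, mem_univ _, hx⟩
  have h1 := Set.ncard_le_ncard hsub (Finset.finite_toSet _)
  rw [Set.ncard_coe_finset] at h1
  have h2 : ((itin p k).ncard : ℝ) ≤ ∑ l ∈ Finset.range (k + 1), Real.exp (C * lc k) := by
    have h3 := h1.trans Finset.card_biUnion_le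
    have h4 : ((itin p k).ncard : ℝ) ≤ ∑ l ∈ Finset.range (k + 1),
        ((words_finite (p := p) l univ).toFinset.card : ℝ) := by exact_mod_cast h3
    refine h4.trans (Finset.sum_le_sum fun l hl => ?_)
    rw [← Set.ncard_eq_toFinset_card _ (words_finite _ _)]
    rw [Finset.mem_range] at hl
    rcases Nat.eq_zero_or_pos l with rfl | hl0
    · have g1 : ((words p 0 univ).ncard : ℝ) ≤ 1 := by
        have := words_triv (p := p) 0 univ
        rw [pow_zero] at this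
        exact_mod_cast this
      refine g1.trans ?_
      rw [← Real.exp_zero]
      apply Real.exp_le_exp.2
      positivity
    · refine (h l hl0).trans (Real.exp_le_exp.2 ?_)
      have := lc_mono hl0 (show l ≤ k by omega)
      gcongr
  rw [Finset.sum_const, Finset.card_range, nsmul_eq_mul] at h2
  refine h2.trans ?_
  have h5 : ((k + 1 : ℕ) : ℝ) ≤ Real.exp (12 * lc k) := by
    push_cast
    have g1 : Real.log ((k : ℝ) + 1) ≤ 12 * lc k := by
      have g2 := log_le_lc hk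
      have g3 := bl_le hk
      have g4 : sc k ^ (1 / 3 : ℝ) ≤ k := by
        -- `sc k ≤ (k : ℝ) ^ 2 + k ≤ ...`
        have g5 : sc k ≤ (k : ℝ) ^ 3 * 1 := by
          unfold sc
          have := Real.log_le_sub_one_of_pos (show (0 : ℝ) < (k : ℝ) + 1 by linarith)
          have g6 : (k : ℝ) * Real.log ((k : ℝ) + 1) ≤ k * k := by
            gcongr
            linarith
          nlinarith
        rw [mul_one] at g5
        calc sc k ^ (1 / 3 : ℝ) ≤ ((k : ℝ) ^ 3) ^ (1 / 3 : ℝ) :=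
              Real.rpow_le_rpow (by linarith [sc_ge hk]) g5 (by norm_num)
          _ = k := by
              rw [← Real.rpow_natCast, ← Real.rpow_mul (by linarith)]
              norm_num
      have g7 : Real.log ((k : ℝ) + 1) * k ≤ 3 * k * lc k := by
        refine g2.trans ?_
        gcongr
        linarith
      have g8 : Real.log ((k : ℝ) + 1) ≤ 3 * lc k := by
        have : Real.log ((k : ℝ) + 1) * k ≤ 3 * lc k * k := by linarith
        exact le_of_mul_le_mul_right this (by linarith)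
      linarith
    calc (k : ℝ) + 1 = Real.exp (Real.log ((k : ℝ) + 1)) := (Real.exp_log (by linarith)).symm
      _ ≤ _ := Real.exp_le_exp.2 g1
  calc ((k + 1 : ℕ) : ℝ) * Real.exp (C * lc k) ≤ Real.exp (12 * lc k) * Real.exp (C * lc k) := by
        gcongr
    _ = Real.exp ((C + 12) * lc k) := by
        rw [← Real.exp_add]
        congr 1
        ring

end Pool.Agent.K3h17.BT
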