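import Pool.Agent.K3h17.BT.Cpx
import Pool.Agent.K3h17.BK.Thr
import Pool.Agent.TH103.BL.Gen

set_option autoImplicit false

/-!
The threshold for the directional modulus in a typical convex polygon.
-/

namespace Pool.Agent.K3h17.BT

open Set MeasureTheory Filter Topology Pool.Agent.W780.PG Pool.Agent.W780.BB
  Pool.Agent.TH578.BE Pool.Agent.K3h17.BK

open scoped Real

theorem num_typ (C : ℝ) (hC : 0 < C) : ∃ a : ℝ, 0 < a ∧ ∀ᶠ L : ℝ in atTop, ∃ k : ℕ, 1 ≤ k ∧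
    Real.exp (C * lc k) ^ 2 * (k : ℝ) ^ 3 ≤ Real.exp (L / 2) ∧
    a * (L ^ (3 / 2 : ℝ) / Real.log L) ≤ k := by
  obtain ⟨b, hb⟩ : ∃ b : ℝ, b = min 1 (1 / (8 * C)) := ⟨_, rfl⟩
  have hb0 : 0 < b := by rw [hb]; positivity
  have hb1 : b ≤ 1 := by rw [hb]; exact min_le_left _ _
  have hb2 : b ≤ 1 / (8 * C) := by rw [hb]; exact min_le_right _ _
  obtain ⟨a, ha⟩ : ∃ a : ℝ, a = 1 / 2 * b ^ (3 / 2 : ℝ) := ⟨_, rfl⟩
  have ha0 : 0 < a := by rw [ha]; positivity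
  have ha1 : a ≤ 1 := by
    rw [ha]
    have := Real.rpow_le_one hb0.le hb1 (show (0 : ℝ) ≤ 3 / 2 by norm_num)
    linarith
  refine ⟨a / 2, by positivity, ?_⟩
  have e1 := (isLittleO_pow_exp_pos_mul_atTop (k := 6) (b := 1 / 4) (by norm_num)).bound
    (show (0 : ℝ) < 1 by norm_num)
  have e2 : ∀ᶠ L : ℝ in atTop, 1 ≤ Real.log L :=
    Real.tendsto_log_atTop.eventually (eventually_ge_atTop 1)
  have e3 : ∀ᶠ L : ℝ in atTop, Real.log L ≤ L ^ (1 / 2 : ℝ) * (a / 2) := by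
    have h1 := (isLittleO_log_rpow_atTop (show (0 : ℝ) < 1 / 2 by norm_num)).bound
      (show (0 : ℝ) < a / 2 by positivity)
    filter_upwards [h1, eventually_ge_atTop (1 : ℝ)] with L h2 h3
    rw [Real.norm_eq_abs, Real.norm_eq_abs, abs_of_nonneg (Real.log_nonneg h3),
      abs_of_nonneg (by positivity)] at h2
    linarith
  filter_upwards [e1, e2, e3, eventually_ge_atTop (4 : ℝ)] with L h1 h2 h3 h4
  have hL0 : 0 < L := by linarith
  obtain ⟨x, hx⟩ : ∃ x : ℝ, x = L ^ (3 / 2 : ℝ) / Real.log L := ⟨_, rfl⟩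
  have hlog0 : 0 < Real.log L := by linarith
  have hx0 : 0 < x := by rw [hx]; positivity
  have hL32 : L ^ (3 / 2 : ℝ) = L * L ^ (1 / 2 : ℝ) := by
    have : (3 / 2 : ℝ) = 1 + 1 / 2 := by norm_num
    rw [this, Real.rpow_add hL0, Real.rpow_one]
  have hsq : L ^ (1 / 2 : ℝ) * L ^ (1 / 2 : ℝ) = L := by
    rw [← Real.rpow_add hL0]
    norm_num
  -- `a x ≥ 2`
  have hax : 2 * L ≤ a * x := by
    rw [hx, ← mul_div_assoc, le_div_iff₀ hlog0, hL32]
    calc 2 * L * Real.log L ≤ 2 * L * (L ^ (1 / 2 : ℝ) * (a / 2)) := by gcongr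
      _ = a * (L * L ^ (1 / 2 : ℝ)) := by ring
  have hax2 : 2 ≤ a * x := by linarith
  obtain ⟨k, hk⟩ : ∃ k : ℕ, k = ⌊a * x⌋₊ := ⟨_, rfl⟩
  have hk1 : (k : ℝ) ≤ a * x := by rw [hk]; exact Nat.floor_le (by positivity)
  have hk2 : a * x < k + 1 := by rw [hk]; exact Nat.lt_floor_add_one _
  have hk3 : (1 : ℝ) ≤ k := by linarith
  have hk0 : 1 ≤ k := by exact_mod_cast hk3
  refine ⟨k, hk0, ?_, ?_⟩
  swap
  · rw [← hx]
    linarith
  -- `k + 1 ≤ L ^ 2`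
  have hxL : x ≤ L ^ (3 / 2 : ℝ) := by
    rw [hx]
    exact div_le_self (by positivity) h2
  have hL2 : L ^ (3 / 2 : ℝ) + 1 ≤ L ^ 2 := by
    have g1 : L ^ (2 : ℕ) = L ^ (3 / 2 : ℝ) * L ^ (1 / 2 : ℝ) := by
      rw [← Real.rpow_add hL0]
      norm_num
    have g2 : (2 : ℝ) ≤ L ^ (1 / 2 : ℝ) := by
      have g3 : (4 : ℝ) ^ (1 / 2 : ℝ) ≤ L ^ (1 / 2 : ℝ) :=
        Real.rpow_le_rpow (by norm_num) h4 (by norm_num)
      have g4 : (4 : ℝ) ^ (1 / 2 : ℝ) = 2 := by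
        rw [← Real.sqrt_eq_rpow, show (4 : ℝ) = 2 ^ 2 by norm_num,
          Real.sqrt_sq (by norm_num)]
      linarith
    have g5 : (1 : ℝ) ≤ L ^ (3 / 2 : ℝ) := Real.one_le_rpow (by linarith) (by norm_num)
    rw [g1]
    nlinarith
  have hk4 : (k : ℝ) + 1 ≤ L ^ 2 := by
    have : a * x ≤ 1 * x := by gcongr
    linarith
  have hlogk : Real.log ((k : ℝ) + 1) ≤ 2 * Real.log L := by
    calc Real.log ((k : ℝ) + 1) ≤ Real.log (L ^ 2) := Real.log_le_log (by linarith) hk4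
      _ = 2 * Real.log L := by rw [Real.log_pow]; norm_num
  have hlk0 : 0 ≤ Real.log ((k : ℝ) + 1) := Real.log_nonneg (by linarith)
  have hsc : sc k ≤ b ^ (3 / 2 : ℝ) * L ^ (3 / 2 : ℝ) := by
    unfold sc
    calc (k : ℝ) * Real.log ((k : ℝ) + 1) ≤ (a * x) * (2 * Real.log L) := by gcongr
      _ = 2 * a * L ^ (3 / 2 : ℝ) := by rw [hx]; field_simp
      _ = b ^ (3 / 2 : ℝ) * L ^ (3 / 2 : ℝ) := by rw [ha]; ring
  have hsc0 : 0 ≤ sc k := by linarith [sc_ge hk0]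
  have hlck : lc k ≤ b * L := by
    unfold lc
    calc sc k ^ (2 / 3 : ℝ) ≤ (b ^ (3 / 2 : ℝ) * L ^ (3 / 2 : ℝ)) ^ (2 / 3 : ℝ) :=
          Real.rpow_le_rpow hsc0 hsc (by norm_num)
      _ = b * L := by
          rw [← Real.mul_rpow hb0.le hL0.le, ← Real.rpow_mul (by positivity)]
          norm_num
  have hL6 : L ^ 6 ≤ Real.exp (1 / 4 * L) := by
    have := h1
    rw [Real.norm_eq_abs, Real.norm_eq_abs, one_mul, abs_of_nonneg (by positivity),
      abs_of_pos (Real.exp_pos _)] at this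
    exact this
  have hk5 : (k : ℝ) ^ 3 ≤ Real.exp (1 / 4 * L) := by
    calc (k : ℝ) ^ 3 ≤ (L ^ 2) ^ 3 := by
          gcongr
          linarith
      _ = L ^ 6 := by ring
      _ ≤ _ := hL6
  have hC2 : C * lc k ≤ L / 8 := by
    calc C * lc k ≤ C * (b * L) := by gcongr
      _ ≤ C * (1 / (8 * C) * L) := by gcongr
      _ = L / 8 := by field_simp
  calc Real.exp (C * lc k) ^ 2 * (k : ℝ) ^ 3
      ≤ Real.exp (L / 8) ^ 2 * Real.exp (1 / 4 * L) := by gcongr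
    _ = Real.exp (L / 2) := by
        rw [pow_two, ← Real.exp_add, ← Real.exp_add]
        congr 1
        ring

/-- For every `ε > 0` there are arbitrarily small `h > 0` such that the change at the angle `h` is at
most `ε h (log (1 / h)) ^ (3 / 2) / log log (1 / h)`. -/
def TypBelow (m : ℝ → ENNReal) : Prop :=
  ∀ ε : ℝ, 0 < ε → ∃ᶠ h in 𝓝[>] (0 : ℝ), m h ≤ ENNReal.ofReal
    (ε * (h * (Real.log (1 / h) ^ (3 / 2 : ℝ) / Real.log (Real.log (1 / h)))))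

theorem small_of_typ {n : ℕ} {p : Fin (n + 3) → ℂ} (hp : IsConvexPolygon p) (hT : Typical p)
    {m : ℝ → ENNReal} (hm : TypBelow m) : SmallMod p m := by
  obtain ⟨C, hC, hk⟩ := itin_le hp hT
  obtain ⟨a, ha, hev⟩ := num_typ C hC
  intro ε hε
  have h1 := tendsto_L.eventually hev
  have h2 : ∀ᶠ h in 𝓝[>] (0 : ℝ), 0 < h ∧ h < 1 := by
    filter_upwards [Ioo_mem_nhdsGT (zero_lt_one : (0 : ℝ) < 1)] with h hh using hh
  have h3 : ∀ᶠ L : ℝ in atTop, Real.exp (-(L / 2)) ≤ ε := by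
    have h3 : Tendsto (fun L : ℝ => Real.exp (-(L / 2))) atTop (𝓝 0) :=
      Real.tendsto_exp_atBot.comp
        (tendsto_neg_atTop_atBot.comp (tendsto_id.atTop_div_const (by norm_num : (0 : ℝ) < 2)))
    filter_upwards [h3.eventually (gt_mem_nhds hε)] with L hL using hL.le
  have h4 := tendsto_L.eventually h3
  refine ((hm (ε * a) (by positivity)).and_eventually (h1.and (h2.and h4))).mono fun h hh => ?_
  obtain ⟨a1, ⟨k, hk1, hk2, hk3⟩, ⟨a3, a4⟩, a5⟩ := hh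
  obtain ⟨L, hL⟩ : ∃ L : ℝ, L = Real.log (1 / h) := ⟨_, rfl⟩
  rw [← hL] at a1 hk2 hk3 a5
  have hexp : h = Real.exp (-L) := by
    rw [hL, one_div, Real.log_inv, neg_neg, Real.exp_log a3]
  refine ⟨k, ?_, a1.trans (ENNReal.ofReal_le_ofReal ?_)⟩
  · calc ((itin p k).ncard : ℝ) ^ 2 * (k : ℝ) ^ 3 * h
        ≤ Real.exp (C * lc k) ^ 2 * (k : ℝ) ^ 3 * h := by
          have := hk k hk1
          gcongr
      _ ≤ Real.exp (L / 2) * h := by gcongr
      _ = Real.exp (-(L / 2)) := by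
          rw [hexp, ← Real.exp_add]
          congr 1
          ring
      _ ≤ ε := a5
  · calc ε * a * (h * (L ^ (3 / 2 : ℝ) / Real.log L))
        = ε * h * (a * (L ^ (3 / 2 : ℝ) / Real.log L)) := by ring
      _ ≤ ε * h * k := by gcongr
      _ = ε * (k * h) := by ring

end Pool.Agent.K3h17.BT
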