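import Pool.Agent.K3h17.BT.Typ

set_option autoImplicit false

/-!
Small boxes of lines are contained in the good neighbourhood of one line.
-/

namespace Pool.Agent.K3h17.BT

open MeasureTheory Set Complex Filter Topology Pool.Agent.W780.PG Pool.Agent.W780.BB
  Pool.Agent.TH225.BL Pool.Agent.K3h17.BK

open scoped ComplexConjugate Real

variable {n : ℕ} {p : Fin (n + 3) → ℂ}

theorem ph_diff (x y : ℝ × ℝ) (a : ℂ) :
    |ph x a - ph y a| ≤ |x.1 - y.1| * ‖a‖ + |x.2 - y.2| := by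
  have h1 := im_diff x.1 y.1 a
  have e : ph x a - ph y a = ((conj (dir x.1) * a).im - (conj (dir y.1) * a).im) -
      (x.2 - y.2) := by
    unfold ph
    ring
  rw [e]
  exact (abs_sub _ _).trans (by linarith)

/-- The square around a line. -/
def sq (x : ℝ × ℝ) (δ : ℝ) : Set (ℝ × ℝ) :=
  Icc (x.1 - δ) (x.1 + δ) ×ˢ Icc (x.2 - δ) (x.2 + δ)

theorem sq_convex (x : ℝ × ℝ) (δ : ℝ) : Convex ℝ (sq x δ) := (convex_Icc _ _).prod (convex_Icc _ _)

theorem bx_convex (a b δ : ℝ) : Convex ℝ (bx a b δ) := (convex_Icc _ _).prod (convex_Icc _ _)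

theorem ph_sq {x₁ x : ℝ × ℝ} {δ ρ : ℝ} {a : ℂ} (hx : x ∈ sq x₁ δ)
    (ha : ‖a‖ ≤ ρ) : |ph x a - ph x₁ a| ≤ δ * (ρ + 1) := by
  obtain ⟨⟨h1, h2⟩, h3, h4⟩ := hx
  have e1 : |x.1 - x₁.1| ≤ δ := abs_le.2 ⟨by linarith, by linarith⟩
  have e2 : |x.2 - x₁.2| ≤ δ := abs_le.2 ⟨by linarith, by linarith⟩
  have hδ : 0 ≤ δ := (abs_nonneg _).trans e1
  refine (ph_diff x x₁ a).trans ?_
  have : |x.1 - x₁.1| * ‖a‖ ≤ δ * ρ := mul_le_mul e1 ha (norm_nonneg _) hδ
  linarith

/-- A nonvanishing function has a constant sign. -/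
theorem same_sign {B : Set (ℝ × ℝ)} (hB : Convex ℝ B) {c : ℂ} (h : ∀ x ∈ B, ph x c ≠ 0)
    {x y : ℝ × ℝ} (hx : x ∈ B) (hy : y ∈ B) : 0 < ph x c * ph y c := by
  have hpre : IsPreconnected B := hB.isPreconnected
  have hcont : ContinuousOn (fun x : ℝ × ℝ => ph x c) B := (continuous_ph c).continuousOn
  by_contra hcon
  push Not at hcon
  have hne : ph x c * ph y c < 0 :=
    lt_of_le_of_ne hcon (mul_ne_zero (h x hx) (h y hy))
  rcases mul_neg_iff.1 hne with ⟨h1, h2⟩ | ⟨h1, h2⟩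
  · obtain ⟨z, hz, hz0⟩ := hpre.intermediate_value hy hx hcont (show (0 : ℝ) ∈ Icc (ph y c) (ph x c)
      from ⟨h2.le, h1.le⟩)
    exact h z hz hz0
  · obtain ⟨z, hz, hz0⟩ := hpre.intermediate_value hx hy hcont (show (0 : ℝ) ∈ Icc (ph x c) (ph y c)
      from ⟨h1.le, h2.le⟩)
    exact h z hz hz0

/-- Three points near a line are nearly collinear. -/
theorem lft_small {x : ℝ × ℝ} {a b c : ℂ} {κ ρ : ℝ} (ha : |ph x a| ≤ κ)
    (hb : |ph x b| ≤ κ) (hc : |ph x c| ≤ κ) (ha' : ‖a‖ ≤ ρ) (hb' : ‖b‖ ≤ ρ) (hc' : ‖c‖ ≤ ρ) :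
    |lft a b c| ≤ 8 * κ * ρ := by
  have hκ : 0 ≤ κ := (abs_nonneg _).trans ha
  have hρ : 0 ≤ ρ := (norm_nonneg _).trans ha'
  set u := conj (dir x.1) * (b - a) with hu
  set v := conj (dir x.1) * (c - a) with hv
  have h1 : lft a b c = u.re * v.im - u.im * v.re := by
    have e : conj u * v = conj (b - a) * (c - a) := by
      rw [hu, hv, map_mul, Complex.conj_conj]
      have : dir x.1 * conj (dir x.1) = 1 := Pool.Agent.W74.BB.dir_mul_conj x.1
      calc _ = (dir x.1 * conj (dir x.1)) * (conj (b - a) * (c - a)) := by ring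
        _ = _ := by rw [this, one_mul]
    unfold lft
    rw [← e, Complex.mul_im, Complex.conj_re, Complex.conj_im]
    ring
  have hui : u.im = ph x b - ph x a := by
    rw [hu, mul_sub, Complex.sub_im]
    unfold ph
    ring
  have hvi : v.im = ph x c - ph x a := by
    rw [hv, mul_sub, Complex.sub_im]
    unfold ph
    ring
  have a1 : |u.im| ≤ 2 * κ := by
    rw [hui]
    exact (abs_sub _ _).trans (by linarith)
  have a2 : |v.im| ≤ 2 * κ := by
    rw [hvi]
    exact (abs_sub _ _).trans (by linarith)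
  have a3 : |u.re| ≤ 2 * ρ := by
    refine (Complex.abs_re_le_norm _).trans ?_
    rw [hu, norm_mul, RCLike.norm_conj, Pool.Agent.W74.BB.norm_dir, one_mul]
    exact (norm_sub_le _ _).trans (by linarith)
  have a4 : |v.re| ≤ 2 * ρ := by
    refine (Complex.abs_re_le_norm _).trans ?_
    rw [hv, norm_mul, RCLike.norm_conj, Pool.Agent.W74.BB.norm_dir, one_mul]
    exact (norm_sub_le _ _).trans (by linarith)
  rw [h1]
  refine (abs_sub _ _).trans ?_
  rw [abs_mul, abs_mul]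
  have b1 : |u.re| * |v.im| ≤ 2 * ρ * (2 * κ) :=
    mul_le_mul a3 a2 (abs_nonneg _) (by positivity)
  have b2 : |u.im| * |v.re| ≤ 2 * κ * (2 * ρ) :=
    mul_le_mul a1 a4 (abs_nonneg _) (by positivity)
  linarith

/-- The line through two points which are near the line `x₁`. -/
theorem line_through {x₁ : ℝ × ℝ} {a b : ℂ} {κ ρ η : ℝ} (hη : 0 < η) (hρ : 1 ≤ ρ)
    (ha : |ph x₁ a| ≤ κ) (hb : |ph x₁ b| ≤ κ) (ha' : ‖a‖ ≤ ρ)
    (hab : η ≤ ‖a - b‖) (hre : 0 < (conj (dir x₁.1) * (b - a)).re) :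
    ∃ x : ℝ × ℝ, x ∈ sq x₁ (4 * κ * ρ / η + κ) ∧ ph x a = 0 ∧
      ∀ c, lft a b c = ‖b - a‖ * ph x c := by
  have hpi := Real.pi_pos
  have hκ : 0 ≤ κ := (abs_nonneg _).trans ha
  set v := conj (dir x₁.1) * (b - a) with hv
  have hvn : ‖v‖ = ‖b - a‖ := by
    rw [hv, norm_mul, RCLike.norm_conj, Pool.Agent.W74.BB.norm_dir, one_mul]
  have hba : η ≤ ‖b - a‖ := by rw [norm_sub_rev]; exact hab
  have hv0 : 0 < ‖v‖ := by rw [hvn]; linarith
  have hvi : v.im = ph x₁ b - ph x₁ a := by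
    rw [hv, mul_sub, Complex.sub_im]
    unfold ph
    ring
  have him : |v.im| ≤ 2 * κ := by
    rw [hvi]
    exact (abs_sub _ _).trans (by linarith)
  set φ := arg v with hφ
  have hφ2 : |φ| ≤ π / 2 := Complex.abs_arg_le_pi_div_two_iff.2 hre.le
  have hsin : Real.sin φ = v.im / ‖v‖ := Complex.sin_arg v
  have hφ3 : |φ| ≤ 4 * κ / η := by
    have h1 := Real.mul_abs_le_abs_sin hφ2
    rw [hsin, abs_div, abs_of_pos hv0] at h1
    have h2 : |v.im| / ‖v‖ ≤ 2 * κ / η := by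
      rw [hvn]
      exact div_le_div₀ (by positivity) him hη hba
    have h3 : 2 / π * |φ| ≤ 2 * κ / η := h1.trans h2
    have h4 : (1 / 2 : ℝ) * |φ| ≤ 2 / π * |φ| := by
      apply mul_le_mul_of_nonneg_right _ (abs_nonneg _)
      rw [div_le_div_iff₀ (by norm_num) hpi]
      linarith [Real.pi_lt_four]
    have h5 : |φ| ≤ 2 * (2 * κ / η) := by linarith
    calc |φ| ≤ 2 * (2 * κ / η) := h5
      _ = 4 * κ / η := by ring
  set θ := x₁.1 + φ with hθ
  have hdir : (‖b - a‖ : ℂ) * dir θ = b - a := by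
    have h1 : (‖v‖ : ℂ) * dir φ = v := by
      unfold dir
      rw [hφ, Complex.norm_mul_exp_arg_mul_I]
    have h2 : dir θ = dir x₁.1 * dir φ := by rw [hθ, dir_mul]
    rw [h2, ← hvn]
    calc (‖v‖ : ℂ) * (dir x₁.1 * dir φ) = dir x₁.1 * ((‖v‖ : ℂ) * dir φ) := by ring
      _ = dir x₁.1 * (conj (dir x₁.1) * (b - a)) := by rw [h1]
      _ = (dir x₁.1 * conj (dir x₁.1)) * (b - a) := by ring
      _ = b - a := by rw [Pool.Agent.W74.BB.dir_mul_conj, one_mul]
  refine ⟨(θ, (conj (dir θ) * a).im), ?_, by unfold ph; simp, fun c => ?_⟩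
  · have h1 : |θ - x₁.1| ≤ 4 * κ / η := by rw [hθ, add_sub_cancel_left]; exact hφ3
    have h2 : 4 * κ / η ≤ 4 * κ * ρ / η := by
      apply div_le_div_of_nonneg_right _ hη.le
      nlinarith
    have h3 := im_diff θ x₁.1 a
    have h4 : |θ - x₁.1| * ‖a‖ ≤ 4 * κ / η * ρ :=
      mul_le_mul h1 ha' (norm_nonneg _) (by positivity)
    have h5 : 4 * κ / η * ρ = 4 * κ * ρ / η := by ring
    have h6 : |(conj (dir θ) * a).im - x₁.2| ≤ 4 * κ * ρ / η + κ := by
      have e : (conj (dir θ) * a).im - x₁.2 =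
          ((conj (dir θ) * a).im - (conj (dir x₁.1) * a).im) + ph x₁ a := by
        unfold ph
        ring
      rw [e]
      refine (abs_add_le _ _).trans ?_
      linarith
    rw [abs_le] at h1 h6
    refine ⟨⟨?_, ?_⟩, ?_, ?_⟩
    · simp only []
      linarith [h1.1]
    · simp only []
      linarith [h1.2]
    · simp only []
      linarith [h6.1]
    · simp only []
      linarith [h6.2]
  · unfold lft ph
    simp only []
    have h1 : conj (b - a) = (‖b - a‖ : ℂ) * conj (dir θ) := by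
      conv_lhs => rw [← hdir]
      rw [map_mul, Complex.conj_ofReal]
    rw [h1, mul_assoc, Complex.im_ofReal_mul, mul_sub, Complex.sub_im]

/-- The geometric lemma. -/
theorem box_nb (m : ℕ) (η ρ δ : ℝ) (hη : 0 < η) (hη1 : η ≤ 1) (hρ : 1 ≤ ρ) (hδ : 0 < δ)
    (hsm : 400 * ρ ^ 4 * δ ≤ η ^ 2) (hnorm : ∀ a ∈ VF p m, ‖a‖ ≤ ρ)
    (hpair : ∀ a ∈ VF p m, ∀ b ∈ VF p m, a ≠ b → η ≤ ‖a - b‖)
    (htri : ∀ a ∈ VF p m, ∀ b ∈ VF p m, ∀ c ∈ VF p m, lft a b c ≠ 0 → η ≤ |lft a b c|)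
    (a₀ b₀ : ℝ) : ∃ x₀, bx a₀ b₀ δ ⊆ nb p m x₀ := by
  set B := bx a₀ b₀ δ with hB
  have hBc : Convex ℝ B := bx_convex _ _ _
  set x₁ : ℝ × ℝ := (a₀, b₀) with hx₁
  have hx₁B : x₁ ∈ B := ⟨⟨le_rfl, by linarith⟩, le_rfl, by linarith⟩
  have hBsq : B ⊆ sq x₁ δ := by
    rintro x ⟨⟨h1, h2⟩, h3, h4⟩
    exact ⟨⟨by simp only [hx₁]; linarith, h2⟩, by simp only [hx₁]; linarith, h4⟩
  -- the vertices met by the lines of the box
  by_cases hcase : ∃ a ∈ VF p m, ∃ b ∈ VF p m, a ≠ b ∧ (∃ x ∈ B, ph x a = 0) ∧ ∃ x ∈ B, ph x b = 0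
  · -- two different vertices
    obtain ⟨κ, hκ⟩ : ∃ κ, κ = δ * (ρ + 1) := ⟨_, rfl⟩
    have hκ0 : 0 < κ := by rw [hκ]; positivity
    have hκ1 : κ ≤ 2 * ρ * δ := by rw [hκ]; nlinarith
    have hκη : 4 * κ < η := by
      have h1 : 4 * κ ≤ 8 * ρ * δ := by linarith
      have h2 : ρ ≤ ρ ^ 4 := by
        have : (1 : ℝ) ≤ ρ ^ 3 := one_le_pow₀ hρ
        nlinarith
      have h3 : η ^ 2 ≤ η := by nlinarith
      have h4 : 400 * ρ * δ ≤ 400 * ρ ^ 4 * δ := by gcongr
      have h5 : 0 < ρ * δ := by positivity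
      linarith
    -- choose the order
    have hexab : ∃ a ∈ VF p m, ∃ b ∈ VF p m, a ≠ b ∧ |ph x₁ a| ≤ κ ∧ |ph x₁ b| ≤ κ ∧
        0 < (conj (dir x₁.1) * (b - a)).re := by
      obtain ⟨a, ha, b, hb, hab, ⟨x, hx, hxa⟩, y, hy, hyb⟩ := hcase
      have h1 : |ph x₁ a| ≤ κ := by
        have := ph_sq (hBsq hx) (hnorm a ha)
        rw [hxa, zero_sub, abs_neg] at this
        rw [hκ]
        exact this
      have h2 : |ph x₁ b| ≤ κ := by
        have := ph_sq (hBsq hy) (hnorm b hb)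
        rw [hyb, zero_sub, abs_neg] at this
        rw [hκ]
        exact this
      have hne : (conj (dir x₁.1) * (b - a)).re ≠ 0 := by
        intro h0
        have h3 := hpair a ha b hb hab
        have h4 : ‖conj (dir x₁.1) * (b - a)‖ = ‖a - b‖ := by
          rw [norm_mul, RCLike.norm_conj, Pool.Agent.W74.BB.norm_dir, one_mul, norm_sub_rev]
        have h5 : ‖conj (dir x₁.1) * (b - a)‖ ≤ |(conj (dir x₁.1) * (b - a)).re| +
            |(conj (dir x₁.1) * (b - a)).im| := Complex.norm_le_abs_re_add_abs_im _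
        have h6 : (conj (dir x₁.1) * (b - a)).im = ph x₁ b - ph x₁ a := by
          rw [mul_sub, Complex.sub_im]
          unfold ph
          ring
        rw [h0, abs_zero, zero_add, h6] at h5
        have h7 := abs_sub (ph x₁ b) (ph x₁ a)
        linarith
      rcases lt_or_gt_of_ne hne with h | h
      · refine ⟨b, hb, a, ha, Ne.symm hab, h2, h1, ?_⟩
        have e : conj (dir x₁.1) * (a - b) = -(conj (dir x₁.1) * (b - a)) := by ring
        rw [e, Complex.neg_re]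
        linarith
      · exact ⟨a, ha, b, hb, hab, h1, h2, h⟩
    obtain ⟨a, ha, b, hb, hab, h1, h2, hre⟩ := hexab
    obtain ⟨x₀, hx₀, hx₀a, hx₀c⟩ := line_through hη hρ h1 h2 (hnorm a ha) (hpair a ha b hb hab) hre
    set δ' := 4 * κ * ρ / η + κ with hδ'
    have hδδ' : δ ≤ δ' := by
      have h3 : δ ≤ κ := by rw [hκ]; nlinarith
      have h4 : 0 ≤ 4 * κ * ρ / η := by positivity
      linarith
    refine ⟨x₀, ?_⟩
    intro x hx c hc hne
    refine same_sign (sq_convex x₁ δ') (c := c) ?_ hx₀ ?_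
    · intro y hy hy0
      -- then `c` is on the line through `a` and `b`
      have h3 := ph_sq hy (hnorm c hc)
      rw [hy0, zero_sub, abs_neg] at h3
      obtain ⟨κ', hκ'⟩ : ∃ κ', κ' = δ' * (ρ + 1) := ⟨_, rfl⟩
      rw [← hκ'] at h3
      have hκκ' : κ ≤ κ' := by
        rw [hκ', hκ]
        gcongr
      have h4 := lft_small (h1.trans hκκ') (h2.trans hκκ') h3 (hnorm a ha) (hnorm b hb)
        (hnorm c hc)
      have h5 : 8 * κ' * ρ < η := by
        have e1 : δ' ≤ 5 * κ * ρ / η := by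
          rw [hδ']
          have : κ ≤ κ * ρ / η := by
            rw [le_div_iff₀ hη]
            nlinarith
          calc 4 * κ * ρ / η + κ ≤ 4 * κ * ρ / η + κ * ρ / η := by linarith
            _ = 5 * κ * ρ / η := by ring
        have e2 : κ' ≤ 5 * κ * ρ / η * (2 * ρ) := by
          rw [hκ']
          have : ρ + 1 ≤ 2 * ρ := by linarith
          gcongr
        have e3 : κ' ≤ 20 * ρ ^ 3 * δ / η := by
          calc κ' ≤ 5 * κ * ρ / η * (2 * ρ) := e2
            _ ≤ 5 * (2 * ρ * δ) * ρ / η * (2 * ρ) := by gcongr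
            _ = 20 * ρ ^ 3 * δ / η := by ring
        have e4 : 8 * κ' * ρ ≤ 160 * ρ ^ 4 * δ / η := by
          calc 8 * κ' * ρ ≤ 8 * (20 * ρ ^ 3 * δ / η) * ρ := by gcongr
            _ = 160 * ρ ^ 4 * δ / η := by ring
        refine lt_of_le_of_lt e4 ?_
        rw [div_lt_iff₀ hη]
        have e5 : 0 < ρ ^ 4 * δ := by positivity
        nlinarith
      have h6 : lft a b c = 0 := by
        by_contra h0
        have := htri a ha b hb c hc h0
        linarith
      rw [hx₀c] at h6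
      have h7 : ‖b - a‖ ≠ 0 := (norm_pos_iff.2 (sub_ne_zero.2 (Ne.symm hab))).ne'
      exact hne ((mul_eq_zero.1 h6).resolve_left h7)
    · obtain ⟨⟨h3, h4⟩, h5, h6⟩ := hBsq hx
      exact ⟨⟨by linarith, by linarith⟩, by linarith, by linarith⟩
  · push Not at hcase
    -- at most one vertex
    by_cases h1 : ∃ a ∈ VF p m, ∃ x ∈ B, ph x a = 0
    · obtain ⟨a, ha, x₀, hx₀, hx₀a⟩ := h1
      refine ⟨x₀, ?_⟩
      intro x hx c hc hne
      have hca : c ≠ a := by
        rintro rfl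
        exact hne hx₀a
      exact same_sign hBc (c := c) (fun y hy hy0 =>
        hcase a ha c hc (Ne.symm hca) ⟨x₀, hx₀, hx₀a⟩ y hy hy0) hx₀ hx
    · push Not at h1
      refine ⟨x₁, ?_⟩
      intro x hx c hc _
      exact same_sign hBc (c := c) (fun y hy => h1 c hc y hy) hx₁B hx

theorem norm_rf (i : Fin (n + 3)) (z : ℂ) : ‖rf p i z‖ ≤ ‖z‖ + 2 * Rb p := by
  unfold rf
  refine (norm_add_le _ _).trans ?_
  rw [norm_mul, Pool.Agent.W74.BB.norm_dir, one_mul, RCLike.norm_conj]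
  have h1 := norm_sub_le z (p i)
  have h2 := le_Rb (p := p) i
  linarith

theorem VF_norm (m : ℕ) : ∀ a ∈ VF p m, ‖a‖ ≤ Rb p * (2 * m + 1) := by
  intro a ha
  obtain ⟨w, hw, j, rfl⟩ := VF_word p m a ha
  have hR := Rb_nonneg (p := p)
  have h1 : ∀ w : List (Fin (n + 3)), ‖uf p w (p j)‖ ≤ Rb p * (2 * w.length + 1) := by
    intro w
    induction w with
    | nil =>
      rw [uf]
      simpa using le_Rb (p := p) j
    | cons i w ih =>
      rw [uf, List.length_cons]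
      refine (norm_rf i _).trans ?_
      push_cast
      linarith
  refine (h1 w).trans ?_
  have : (w.length : ℝ) ≤ m := by exact_mod_cast hw
  gcongr

/-- In a typical polygon boxes of size `exp (-C m ^ 2)` are good. -/
theorem typ_box (hT : Typical p) : ∃ C : ℝ, 0 < C ∧ ∃ m₀ : ℕ,
    ∀ m ≥ m₀, ∀ a b : ℝ, ∃ x₀, bx a b (Real.exp (-(C * ((m : ℝ) + 1) ^ 2))) ⊆ nb p m x₀ := by
  obtain ⟨C, hC, m₀, h⟩ := hT
  have hR := Rb_nonneg (p := p)
  set A := Real.log (400 * (2 * Rb p + 1) ^ 4) with hA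
  have hA0 : 0 ≤ A := by
    rw [hA]
    apply Real.log_nonneg
    have : (1 : ℝ) ≤ (2 * Rb p + 1) ^ 4 := one_le_pow₀ (by linarith)
    linarith
  refine ⟨2 * C + 4 + A, by positivity, m₀, fun m hm a b => ?_⟩
  have hm0 : (0 : ℝ) ≤ m := m.cast_nonneg
  set s := ((m : ℝ) + 1) ^ 2 with hs
  have hs1 : 1 ≤ s := by rw [hs]; nlinarith
  set ρ := (2 * Rb p + 1) * ((m : ℝ) + 1) with hρ
  have hρ1 : 1 ≤ ρ := by rw [hρ]; nlinarith
  refine box_nb m (Real.exp (-(C * s))) ρ _ (Real.exp_pos _) ?_ hρ1 (Real.exp_pos _) ?_ ?_ ?_ ?_ a b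
  · apply Real.exp_le_one_iff.2
    have : 0 ≤ C * s := by positivity
    linarith
  · have h1 : 400 * ρ ^ 4 ≤ Real.exp ((4 + A) * s) := by
      have h2 : 400 * ρ ^ 4 = (400 * (2 * Rb p + 1) ^ 4) * ((m : ℝ) + 1) ^ 4 := by
        rw [hρ]; ring
      have h3 : 400 * (2 * Rb p + 1) ^ 4 = Real.exp A := by
        rw [hA, Real.exp_log (by positivity)]
      have h4 : ((m : ℝ) + 1) ≤ Real.exp s := by
        have := Real.add_one_le_exp s
        have h5 : (m : ℝ) + 1 ≤ s := by rw [hs]; nlinarith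
        linarith
      have h5 : ((m : ℝ) + 1) ^ 4 ≤ Real.exp (4 * s) := by
        calc ((m : ℝ) + 1) ^ 4 ≤ (Real.exp s) ^ 4 := by gcongr
          _ = Real.exp (4 * s) := by
            rw [← Real.exp_nat_mul]
            norm_num
      rw [h2, h3]
      calc Real.exp A * ((m : ℝ) + 1) ^ 4 ≤ Real.exp (A * s) * Real.exp (4 * s) := by
            gcongr
            nlinarith
        _ = Real.exp ((4 + A) * s) := by
            rw [← Real.exp_add]
            congr 1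
            ring
    calc 400 * ρ ^ 4 * Real.exp (-((2 * C + 4 + A) * s)) ≤
        Real.exp ((4 + A) * s) * Real.exp (-((2 * C + 4 + A) * s)) := by gcongr
      _ = (Real.exp (-(C * s))) ^ 2 := by
          rw [← Real.exp_add, ← Real.exp_nat_mul]
          congr 1
          push_cast
          ring
  · intro c hc
    refine (VF_norm m c hc).trans ?_
    rw [hρ]
    nlinarith
  · intro c hc d hd hne
    exact (h m hm c hc d hd).1 hne
  · intro c hc d hd e he hne
    exact (h m hm c hc d hd).2 e he hne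

end Pool.Agent.K3h17.BT
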