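import Pool.Agent.K3h17.BT.Thr

set_option autoImplicit false

/-!
Typical convex polygons: complexity and invariant sets.
-/

namespace Pool.Agent.K3h17.BT

open Set MeasureTheory Filter Topology Pool.Agent.W780.PG Pool.Agent.W780.BB
  Pool.Agent.TH578.BE Pool.Agent.K3h17.BK

open scoped Real

theorem main_B (n : ℕ) : ∀ᵐ p : Fin (n + 3) → ℂ, IsConvexPolygon p →
    (∃ C : ℝ, ∀ k : ℕ, 1 ≤ k → ((itin p k).ncard : ℝ) ≤
      Real.exp (C * ((k : ℝ) * Real.log ((k : ℝ) + 1)) ^ (2 / 3 : ℝ))) ∧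
    (∀ A : Set (ℂ × ℝ), MeasurableSet A → IsInvariant p A → TypBelow (om p A) →
      IsTrivial p A) ∧
    (∀ (ω : ℝ) (χ : Fin (n + 3) → ℂ), (∀ i, χ i = 1 ∨ χ i = -1) → ∀ f : ℂ × ℝ → ℂ,
      Measurable f → IsEigenfunction p ω χ f → TypBelow (modulus p f) →
        ∃ c : ℂ, (∀ᵐ x : ℂ × ℝ, x ∈ phase p → f x = c) ∧
          (c ≠ 0 → ω = 0 ∧ ∀ i, χ i = 1)) := by
  filter_upwards [ae_typical n, Pool.Agent.TH103.BL.ae_irrational n] with p hT hirr hp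
  have hT' := hT hp
  have hir : ∃ i, Irrational (ang p i / π) := ⟨0, hirr hp 0⟩
  refine ⟨?_, ?_, ?_⟩
  · obtain ⟨C, -, hC⟩ := itin_le hp hT'
    exact ⟨C, hC⟩
  · intro A hA hI hB
    exact final_s hp hir A hA hI (small_of_typ hp hT' hB)
  · intro ω χ hχ f hf hE hB
    have hχ1 : ∀ i, ‖χ i‖ = 1 := by
      intro i
      rcases hχ i with h | h <;> rw [h] <;> simp
    exact (final_f hp ω χ hχ1 f hf hE (small_of_typ hp hT' hB)).2.2 hir hχ

end Pool.Agent.K3h17.BT
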