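import Pool.Agent.K3h17.BT.Sub

set_option autoImplicit false

/-!
Integer polynomials in the coordinates of complex variables.
-/

namespace Pool.Agent.K3h17.BT

open MeasureTheory Set

open scoped ComplexConjugate

/-- The real coordinates. -/
noncomputable def co {N : ℕ} (z : Fin N → ℂ) : Fin (N + N) → ℝ :=
  (MeasurableEquiv.piCongrLeft (fun _ => ℝ) finSumFinEquiv)
    ((MeasurableEquiv.sumPiEquivProdPi (fun _ : Fin N ⊕ Fin N => ℝ)).symm
      ((MeasurableEquiv.arrowProdEquivProdArrow ℝ ℝ (Fin N))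
        (fun i => Complex.measurableEquivRealProd (z i))))

theorem mp_co (N : ℕ) : MeasurePreserving (co : (Fin N → ℂ) → (Fin (N + N) → ℝ)) := by
  have h1 : MeasurePreserving (fun z : Fin N → ℂ => fun i => Complex.measurableEquivRealProd (z i)) :=
    volume_preserving_pi fun _ => Complex.volume_preserving_equiv_real_prod
  exact (volume_measurePreserving_piCongrLeft (fun _ => ℝ) finSumFinEquiv).comp
    ((volume_measurePreserving_sumPiEquivProdPi_symm (fun _ : Fin N ⊕ Fin N => ℝ)).comp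
      ((volume_measurePreserving_arrowProdEquivProdArrow ℝ ℝ (Fin N)).comp h1))

theorem co_re {N : ℕ} (z : Fin N → ℂ) (i : Fin N) : co z (finSumFinEquiv (Sum.inl i)) = (z i).re := by
  unfold co
  rw [MeasurableEquiv.piCongrLeft_apply_apply]
  rfl

theorem co_im {N : ℕ} (z : Fin N → ℂ) (i : Fin N) : co z (finSumFinEquiv (Sum.inr i)) = (z i).im := by
  unfold co
  rw [MeasurableEquiv.piCongrLeft_apply_apply]
  rfl

/-- Real integer polynomial functions of degree at most `d`. -/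
def RP {N : ℕ} (d : ℕ) (f : (Fin N → ℂ) → ℝ) : Prop :=
  ∃ q : MvPolynomial (Fin (N + N)) ℤ, q.totalDegree ≤ d ∧ ∀ z, f z = MvPolynomial.aeval (co z) q

/-- Complex integer polynomial functions of degree at most `d`. -/
def IP {N : ℕ} (d : ℕ) (F : (Fin N → ℂ) → ℂ) : Prop :=
  RP d (fun z => (F z).re) ∧ RP d (fun z => (F z).im)

variable {N : ℕ}

theorem RP.mono {d e : ℕ} {f : (Fin N → ℂ) → ℝ} (h : RP d f) (hde : d ≤ e) : RP e f := by
  obtain ⟨q, h1, h2⟩ := h
  exact ⟨q, h1.trans hde, h2⟩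

theorem RP.add {d : ℕ} {f g : (Fin N → ℂ) → ℝ} (hf : RP d f) (hg : RP d g) :
    RP d (fun z => f z + g z) := by
  obtain ⟨q, h1, h2⟩ := hf
  obtain ⟨r, h3, h4⟩ := hg
  refine ⟨q + r, (MvPolynomial.totalDegree_add q r).trans (max_le h1 h3), fun z => ?_⟩
  simp only [map_add, h2, h4]

theorem RP.neg {d : ℕ} {f : (Fin N → ℂ) → ℝ} (hf : RP d f) : RP d (fun z => - f z) := by
  obtain ⟨q, h1, h2⟩ := hf
  refine ⟨-q, by rw [MvPolynomial.totalDegree_neg]; exact h1, fun z => ?_⟩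
  simp only [map_neg, h2]

theorem RP.sub {d : ℕ} {f g : (Fin N → ℂ) → ℝ} (hf : RP d f) (hg : RP d g) :
    RP d (fun z => f z - g z) := by
  have := hf.add hg.neg
  simpa only [sub_eq_add_neg] using this

theorem RP.mul {d e : ℕ} {f g : (Fin N → ℂ) → ℝ} (hf : RP d f) (hg : RP e g) :
    RP (d + e) (fun z => f z * g z) := by
  obtain ⟨q, h1, h2⟩ := hf
  obtain ⟨r, h3, h4⟩ := hg
  refine ⟨q * r, (MvPolynomial.totalDegree_mul q r).trans (add_le_add h1 h3), fun z => ?_⟩
  simp only [map_mul, h2, h4]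

theorem RP.one : RP 0 (fun _ : Fin N → ℂ => (1 : ℝ)) :=
  ⟨1, by simp, fun z => by simp⟩

theorem RP.zero : RP 0 (fun _ : Fin N → ℂ => (0 : ℝ)) :=
  ⟨0, by simp, fun z => by simp⟩

theorem IP.mono {d e : ℕ} {f : (Fin N → ℂ) → ℂ} (h : IP d f) (hde : d ≤ e) : IP e f :=
  ⟨h.1.mono hde, h.2.mono hde⟩

theorem IP.add {d : ℕ} {f g : (Fin N → ℂ) → ℂ} (hf : IP d f) (hg : IP d g) :
    IP d (fun z => f z + g z) :=
  ⟨by simpa only [Complex.add_re] using hf.1.add hg.1,
    by simpa only [Complex.add_im] using hf.2.add hg.2⟩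

theorem IP.sub {d : ℕ} {f g : (Fin N → ℂ) → ℂ} (hf : IP d f) (hg : IP d g) :
    IP d (fun z => f z - g z) :=
  ⟨by simpa only [Complex.sub_re] using hf.1.sub hg.1,
    by simpa only [Complex.sub_im] using hf.2.sub hg.2⟩

theorem IP.mul {d e : ℕ} {f g : (Fin N → ℂ) → ℂ} (hf : IP d f) (hg : IP e g) :
    IP (d + e) (fun z => f z * g z) :=
  ⟨by simpa only [Complex.mul_re] using (hf.1.mul hg.1).sub (hf.2.mul hg.2),
    by simpa only [Complex.mul_im] using (hf.1.mul hg.2).add (hf.2.mul hg.1)⟩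

theorem IP.conj {d : ℕ} {f : (Fin N → ℂ) → ℂ} (hf : IP d f) : IP d (fun z => conj (f z)) :=
  ⟨by simpa only [Complex.conj_re] using hf.1, by simpa only [Complex.conj_im] using hf.2.neg⟩

theorem IP.ofReal {d : ℕ} {f : (Fin N → ℂ) → ℝ} (hf : RP d f) : IP d (fun z => (f z : ℂ)) :=
  ⟨by simpa only [Complex.ofReal_re] using hf,
    by simpa only [Complex.ofReal_im] using RP.zero.mono (Nat.zero_le d)⟩

theorem IP.coord (i : Fin N) : IP 1 (fun z : Fin N → ℂ => z i) := by
  constructor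
  · refine ⟨MvPolynomial.X (finSumFinEquiv (Sum.inl i)), ?_, fun z => ?_⟩
    · exact (MvPolynomial.totalDegree_X _).le
    · rw [MvPolynomial.aeval_X, co_re]
  · refine ⟨MvPolynomial.X (finSumFinEquiv (Sum.inr i)), ?_, fun z => ?_⟩
    · exact (MvPolynomial.totalDegree_X _).le
    · rw [MvPolynomial.aeval_X, co_im]

theorem IP.normSq {d : ℕ} {f : (Fin N → ℂ) → ℂ} (hf : IP d f) :
    RP (d + d) (fun z => Complex.normSq (f z)) := by
  simpa only [Complex.normSq_apply] using (hf.1.mul hf.1).add (hf.2.mul hf.2)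

/-- The box. -/
def cbox (N : ℕ) (R : ℝ) : Set (Fin N → ℂ) := {z | co z ∈ box (N + N) R}

theorem mem_cbox {R : ℝ} {z : Fin N → ℂ} (h : ∀ i, ‖z i‖ ≤ R) : z ∈ cbox N R := by
  intro i
  obtain ⟨j, rfl⟩ := finSumFinEquiv.surjective i
  rcases j with j | j
  · rw [co_re]
    exact (Complex.abs_re_le_norm _).trans (h j)
  · rw [co_im]
    exact (Complex.abs_im_le_norm _).trans (h j)

/-- The sublevel set of an integer polynomial function. -/
theorem RP.sublevel {d : ℕ} {f : (Fin N → ℂ) → ℝ} (hf : RP d f) (hne : ∃ z, f z ≠ 0) (R η : ℝ)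
    (hR : 0 < R) (hη : 0 < η) (hη1 : η ≤ 1) :
    volume (cbox N R ∩ {z | |f z| < η ^ (d * (N + N))}) ≤
      ENNReal.ofReal (((N + N : ℕ) : ℝ) * (2 * d * η) * (2 * R + 1) ^ (N + N)) := by
  obtain ⟨q, h1, h2⟩ := hf
  have hq : q ≠ 0 := by
    rintro rfl
    obtain ⟨z, hz⟩ := hne
    rw [h2, map_zero] at hz
    exact hz rfl
  have h3 := BT.sublevel d R η hR hη hη1 (N + N) q hq fun i =>
    (MvPolynomial.degreeOf_le_totalDegree q i).trans h1
  have hm : MeasurableSet (box (N + N) R ∩ {x | |MvPolynomial.aeval x q| < η ^ (d * (N + N))}) :=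
    (box_closed (N + N) R).measurableSet.inter
      (isOpen_lt (cont_aeval q).abs continuous_const).measurableSet
  have h4 : cbox N R ∩ {z | |f z| < η ^ (d * (N + N))} =
      co ⁻¹' (box (N + N) R ∩ {x | |MvPolynomial.aeval x q| < η ^ (d * (N + N))}) := by
    ext z
    simp only [cbox, mem_inter_iff, mem_ofPred_eq, mem_preimage, h2]
  rw [h4, (mp_co N).measure_preimage hm.nullMeasurableSet]
  exact h3

end Pool.Agent.K3h17.BT
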