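import Pool.Agent.K3h17.BT.Re
import Pool.Agent.K3h17.BK.Lim2

set_option autoImplicit false

/-!
The unfolded vertices are integer polynomials in the coordinates of the vertices, up to
denominators.
-/

namespace Pool.Agent.K3h17.BT

open MeasureTheory Set Complex Pool.Agent.W780.PG Pool.Agent.W780.BB Pool.Agent.TH225.BL
  Pool.Agent.K3h17.BK

open scoped ComplexConjugate Real

variable {n : ℕ}

/-- The denominator of one reflection. -/
noncomputable def gg (p : Fin (n + 3) → ℂ) (i : Fin (n + 3)) : ℝ := Complex.normSq (p (i + 1) - p i)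

/-- The denominator of a word. -/
noncomputable def Gw (p : Fin (n + 3) → ℂ) : List (Fin (n + 3)) → ℝ
  | [] => 1
  | i :: w => gg p i * Gw p w

theorem dir_gg (p : Fin (n + 3) → ℂ) (i : Fin (n + 3)) :
    dir (2 * tau p i) * (gg p i : ℂ) = (p (i + 1) - p i) * (p (i + 1) - p i) := by
  have h1 : (p (i + 1) - p i) = (‖p (i + 1) - p i‖ : ℂ) * dir (tau p i) := by
    unfold dir tau
    rw [Complex.norm_mul_exp_arg_mul_I]
  have h2 : dir (2 * tau p i) = dir (tau p i) * dir (tau p i) := by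
    rw [dir_mul]
    congr 1
    ring
  have h3 : (gg p i : ℂ) = (‖p (i + 1) - p i‖ : ℂ) * (‖p (i + 1) - p i‖ : ℂ) := by
    unfold gg
    rw [Complex.normSq_eq_norm_sq]
    push_cast
    ring
  rw [h2, h3]
  conv_rhs => rw [h1]
  ring

theorem rep_step (p : Fin (n + 3) → ℂ) (i : Fin (n + 3)) (w : List (Fin (n + 3))) (y : ℂ) :
    (Gw p (i :: w) : ℂ) * uf p (i :: w) y = (Gw p (i :: w) : ℂ) * p i +
      (p (i + 1) - p i) * (p (i + 1) - p i) *
        (conj ((Gw p w : ℂ) * uf p w y) - (Gw p w : ℂ) * conj (p i)) := by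
  have h := dir_gg p i
  rw [uf, Gw]
  unfold rf
  push_cast
  rw [map_mul, Complex.conj_ofReal, map_sub]
  calc (gg p i : ℂ) * (Gw p w : ℂ) * (p i + dir (2 * tau p i) * (conj (uf p w y) - conj (p i)))
      = (gg p i : ℂ) * (Gw p w : ℂ) * p i + (dir (2 * tau p i) * (gg p i : ℂ)) *
        ((Gw p w : ℂ) * conj (uf p w y) - (Gw p w : ℂ) * conj (p i)) := by ring
    _ = _ := by rw [h]

theorem IP_diff (i : Fin (n + 3)) : IP 1 (fun p : Fin (n + 3) → ℂ => p (i + 1) - p i) :=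
  (IP.coord (i + 1)).sub (IP.coord i)

theorem RP_gg (i : Fin (n + 3)) : RP 2 (fun p : Fin (n + 3) → ℂ => gg p i) := (IP_diff i).normSq

theorem RP_Gw (w : List (Fin (n + 3))) :
    RP (2 * w.length) (fun p : Fin (n + 3) → ℂ => Gw p w) := by
  induction w with
  | nil => exact RP.one
  | cons i w ih =>
    have := (RP_gg i).mul ih
    refine this.mono ?_
    rw [List.length_cons]
    omega

theorem IP_A (w : List (Fin (n + 3))) (j : Fin (n + 3)) :
    IP (2 * w.length + 1) (fun p : Fin (n + 3) → ℂ => (Gw p w : ℂ) * uf p w (p j)) := by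
  induction w with
  | nil =>
    have h := IP.coord (N := n + 3) j
    have e : (fun p : Fin (n + 3) → ℂ => (Gw p [] : ℂ) * uf p [] (p j)) = fun p => p j := by
      funext p
      rw [Gw, uf]
      simp
    rw [e]
    exact h
  | cons i w ih =>
    have e : (fun p : Fin (n + 3) → ℂ => (Gw p (i :: w) : ℂ) * uf p (i :: w) (p j)) =
        fun p => (Gw p (i :: w) : ℂ) * p i + (p (i + 1) - p i) * (p (i + 1) - p i) *
        (conj ((Gw p w : ℂ) * uf p w (p j)) - (Gw p w : ℂ) * conj (p i)) := by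
      funext p
      exact rep_step p i w (p j)
    rw [e]
    have h1 : IP (2 * (i :: w).length + 1) (fun p : Fin (n + 3) → ℂ => (Gw p (i :: w) : ℂ) * p i) :=
      (IP.ofReal (RP_Gw (i :: w))).mul (IP.coord i)
    have h2 : IP (2 * w.length + 1) (fun p : Fin (n + 3) → ℂ => (Gw p w : ℂ) * conj (p i)) :=
      (IP.ofReal (RP_Gw w)).mul (IP.coord i).conj
    have h3 := ((IP_diff (n := n) i).mul (IP_diff i)).mul (ih.conj.sub h2)
    refine h1.add (h3.mono ?_)
    rw [List.length_cons]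
    omega

/-- The function for a pair of unfolded vertices. -/
noncomputable def Sp (u v : List (Fin (n + 3))) (j k : Fin (n + 3)) (p : Fin (n + 3) → ℂ) : ℝ :=
  Complex.normSq ((Gw p u : ℂ) * uf p u (p j) * (Gw p v : ℂ) -
    (Gw p v : ℂ) * uf p v (p k) * (Gw p u : ℂ))

/-- The function for a triple of unfolded vertices. -/
noncomputable def St (u v w : List (Fin (n + 3))) (j k l : Fin (n + 3)) (p : Fin (n + 3) → ℂ) : ℝ :=
  (conj ((Gw p v : ℂ) * uf p v (p k) * (Gw p u : ℂ) -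
    (Gw p u : ℂ) * uf p u (p j) * (Gw p v : ℂ)) *
    ((Gw p w : ℂ) * uf p w (p l) * (Gw p u : ℂ) -
    (Gw p u : ℂ) * uf p u (p j) * (Gw p w : ℂ))).im

theorem IP_AG (u v : List (Fin (n + 3))) (j : Fin (n + 3)) (m : ℕ) (hu : u.length ≤ m)
    (hv : v.length ≤ m) : IP (4 * m + 1)
    (fun p : Fin (n + 3) → ℂ => (Gw p u : ℂ) * uf p u (p j) * (Gw p v : ℂ)) :=
  ((IP_A u j).mul (IP.ofReal (RP_Gw v))).mono (by omega)

theorem RP_Sp (u v : List (Fin (n + 3))) (j k : Fin (n + 3)) (m : ℕ) (hu : u.length ≤ m)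
    (hv : v.length ≤ m) : RP (8 * m + 2) (Sp u v j k) :=
  (((IP_AG u v j m hu hv).sub (IP_AG v u k m hv hu)).normSq).mono (by omega)

theorem RP_St (u v w : List (Fin (n + 3))) (j k l : Fin (n + 3)) (m : ℕ) (hu : u.length ≤ m)
    (hv : v.length ≤ m) (hw : w.length ≤ m) : RP (8 * m + 2) (St u v w j k l) :=
  ((((IP_AG v u k m hv hu).sub (IP_AG u v j m hu hv)).conj.mul
    ((IP_AG w u l m hw hu).sub (IP_AG u w j m hu hw))).mono
      (show 4 * m + 1 + (4 * m + 1) ≤ 8 * m + 2 by omega)).2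

theorem Sp_eq (u v : List (Fin (n + 3))) (j k : Fin (n + 3)) (p : Fin (n + 3) → ℂ) :
    Sp u v j k p = (Gw p u * Gw p v) ^ 2 * ‖uf p u (p j) - uf p v (p k)‖ ^ 2 := by
  unfold Sp
  have : (Gw p u : ℂ) * uf p u (p j) * (Gw p v : ℂ) - (Gw p v : ℂ) * uf p v (p k) * (Gw p u : ℂ) =
      ((Gw p u * Gw p v : ℝ) : ℂ) * (uf p u (p j) - uf p v (p k)) := by
    push_cast
    ring
  rw [this, Complex.normSq_eq_norm_sq, norm_mul, Complex.norm_real, mul_pow, Real.norm_eq_abs,
    sq_abs]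

theorem St_eq (u v w : List (Fin (n + 3))) (j k l : Fin (n + 3)) (p : Fin (n + 3) → ℂ) :
    St u v w j k l p = (Gw p u * Gw p v * (Gw p u * Gw p w)) *
      lft (uf p u (p j)) (uf p v (p k)) (uf p w (p l)) := by
  unfold St lft
  have : conj ((Gw p v : ℂ) * uf p v (p k) * (Gw p u : ℂ) -
      (Gw p u : ℂ) * uf p u (p j) * (Gw p v : ℂ)) *
      ((Gw p w : ℂ) * uf p w (p l) * (Gw p u : ℂ) -
      (Gw p u : ℂ) * uf p u (p j) * (Gw p w : ℂ)) =
      ((Gw p u * Gw p v * (Gw p u * Gw p w) : ℝ) : ℂ) *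
        (conj (uf p v (p k) - uf p u (p j)) * (uf p w (p l) - uf p u (p j))) := by
    simp only [map_sub, map_mul, Complex.conj_ofReal]
    push_cast
    ring
  rw [this, Complex.im_ofReal_mul]

theorem gg_pos {p : Fin (n + 3) → ℂ} (hp : IsConvexPolygon p) (i : Fin (n + 3)) : 0 < gg p i := by
  unfold gg
  rw [Complex.normSq_pos]
  intro h
  have h1 : p (i + 1) = p i := sub_eq_zero.1 h
  exact Pool.Agent.W174.PG.i1 i (Pool.Agent.W174.PG.inj hp h1)

theorem Gw_pos {p : Fin (n + 3) → ℂ} (hp : IsConvexPolygon p) (w : List (Fin (n + 3))) :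
    0 < Gw p w := by
  induction w with
  | nil => exact one_pos
  | cons i w ih => exact mul_pos (gg_pos hp i) ih

/-- a bound for the denominators -/
noncomputable def Bg (p : Fin (n + 3) → ℂ) : ℝ := 1 + 4 * Rb p ^ 2

theorem gg_le (p : Fin (n + 3) → ℂ) (i : Fin (n + 3)) : gg p i ≤ Bg p := by
  unfold gg Bg
  rw [Complex.normSq_eq_norm_sq]
  have h1 : ‖p (i + 1) - p i‖ ≤ 2 * Rb p := by
    refine (norm_sub_le _ _).trans ?_
    linarith [le_Rb (p := p) i, le_Rb (p := p) (i + 1)]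
  have h2 : ‖p (i + 1) - p i‖ ^ 2 ≤ (2 * Rb p) ^ 2 := by gcongr
  nlinarith

theorem Bg_one (p : Fin (n + 3) → ℂ) : 1 ≤ Bg p := by
  unfold Bg
  have := sq_nonneg (Rb p)
  linarith

theorem Gw_le (p : Fin (n + 3) → ℂ) (w : List (Fin (n + 3))) {m : ℕ} (hw : w.length ≤ m) :
    Gw p w ≤ Bg p ^ m := by
  have h1 : ∀ w : List (Fin (n + 3)), Gw p w ≤ Bg p ^ w.length := by
    intro w
    induction w with
    | nil => simp [Gw]
    | cons i w ih =>
      rw [Gw, List.length_cons, pow_succ, mul_comm]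
      have h2 : 0 ≤ gg p i := Complex.normSq_nonneg _
      have h3 : 0 ≤ Bg p ^ w.length := pow_nonneg (by linarith [Bg_one p]) _
      exact mul_le_mul ih (gg_le p i) h2 h3
  exact (h1 w).trans (pow_le_pow_right₀ (Bg_one p) hw)

theorem VF_word (p : Fin (n + 3) → ℂ) : ∀ (m : ℕ) (a : ℂ), a ∈ VF p m →
    ∃ w : List (Fin (n + 3)), w.length ≤ m ∧ ∃ j, a = uf p w (p j) := by
  intro m
  induction m with
  | zero =>
    intro a ha
    rw [VF, Finset.mem_image] at ha
    obtain ⟨j, -, rfl⟩ := ha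
    exact ⟨[], le_rfl, j, rfl⟩
  | succ m ih =>
    intro a ha
    rw [VF, Finset.mem_union] at ha
    rcases ha with ha | ha
    · obtain ⟨w, hw, j, rfl⟩ := ih a ha
      exact ⟨w, by omega, j, rfl⟩
    · rw [Finset.mem_biUnion] at ha
      obtain ⟨i, -, ha⟩ := ha
      rw [Finset.mem_image] at ha
      obtain ⟨b, hb, rfl⟩ := ha
      obtain ⟨w, hw, j, rfl⟩ := ih b hb
      exact ⟨i :: w, by rw [List.length_cons]; omega, j, rfl⟩

end Pool.Agent.K3h17.BT
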