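import Mathlib

set_option autoImplicit false

/-!
The measure of the set on which an integer polynomial is small.
-/

namespace Pool.Agent.K3h17.BT

open MeasureTheory Set

open scoped Polynomial

theorem prod_lower (η : ℝ) (hη : 0 ≤ η) (y : ℂ) (s : Multiset ℂ) :
    (∀ r ∈ s, η ≤ ‖y - r‖) → η ^ (Multiset.card s) ≤ ‖(s.map fun r => y - r).prod‖ := by
  induction s using Multiset.induction_on with
  | empty => intro _; simp
  | cons a s ih =>
    intro h
    rw [Multiset.card_cons, pow_succ, Multiset.map_cons, Multiset.prod_cons, norm_mul, mul_comm]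
    have h1 := h a (Multiset.mem_cons_self a s)
    have h2 := ih fun r hr => h r (Multiset.mem_cons_of_mem hr)
    exact mul_le_mul h1 h2 (pow_nonneg hη _) (norm_nonneg _)

/-- One variable. -/
theorem one_dim (f : ℝ[X]) (t η : ℝ) (D : ℕ) (ht : 0 < t) (hl : t ≤ |f.leadingCoeff|)
    (hD : f.natDegree ≤ D) (hη : 0 < η) (hη1 : η ≤ 1) :
    volume {y : ℝ | |f.eval y| < t * η ^ D} ≤ ENNReal.ofReal (2 * D * η) := by
  classical
  set g : ℂ[X] := f.map (algebraMap ℝ ℂ) with hg
  have hinj : Function.Injective (algebraMap ℝ ℂ) := (algebraMap ℝ ℂ).injective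
  have hsplit : g = Polynomial.C g.leadingCoeff * (g.roots.map fun a => Polynomial.X - Polynomial.C a).prod :=
    (IsAlgClosed.splits g).eq_prod_roots
  have hcard : Multiset.card g.roots = f.natDegree := by
    have h1 := (IsAlgClosed.splits g).natDegree_eq_card_roots
    rw [← h1, hg, Polynomial.natDegree_map]
  have hlead : ‖g.leadingCoeff‖ = |f.leadingCoeff| := by
    rw [hg, Polynomial.leadingCoeff_map]
    simp
  have heval : ∀ y : ℝ, |f.eval y| = |f.leadingCoeff| * ‖(g.roots.map fun r => (y : ℂ) - r).prod‖ := by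
    intro y
    have h1 : ((f.eval y : ℝ) : ℂ) = g.eval (y : ℂ) := by
      rw [hg, Polynomial.eval_map]
      exact (Polynomial.eval₂_at_apply (algebraMap ℝ ℂ) y).symm
    have h2 : |f.eval y| = ‖g.eval (y : ℂ)‖ := by
      rw [← h1, Complex.norm_real, Real.norm_eq_abs]
    have h3 : g.eval (y : ℂ) = g.leadingCoeff * (g.roots.map fun r => (y : ℂ) - r).prod := by
      conv_lhs => rw [hsplit]
      rw [Polynomial.eval_mul, Polynomial.eval_C, Polynomial.eval_multiset_prod, Multiset.map_map]
      simp
    rw [h2, h3, norm_mul, hlead]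
  have hsub : {y : ℝ | |f.eval y| < t * η ^ D} ⊆
      ⋃ r ∈ g.roots.toFinset, Ioo (r.re - η) (r.re + η) := by
    intro y hy
    rw [mem_ofPred_eq, heval] at hy
    by_contra hcon
    simp only [mem_iUnion, not_exists] at hcon
    have hall : ∀ r ∈ g.roots, η ≤ ‖(y : ℂ) - r‖ := by
      intro r hr
      by_contra h
      push Not at h
      refine hcon r (Multiset.mem_toFinset.2 hr) ?_
      have h3 : |((y : ℂ) - r).re| < η := lt_of_le_of_lt (Complex.abs_re_le_norm _) h
      rw [Complex.sub_re, Complex.ofReal_re, abs_lt] at h3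
      constructor <;> linarith [h3.1, h3.2]
    have h4 := prod_lower η hη.le (y : ℂ) g.roots hall
    rw [hcard] at h4
    have h5 : η ^ D ≤ η ^ f.natDegree := pow_le_pow_of_le_one hη.le hη1 hD
    have h6 : t * η ^ D ≤ |f.leadingCoeff| * ‖(g.roots.map fun r => (y : ℂ) - r).prod‖ :=
      mul_le_mul hl (h5.trans h4) (by positivity) (abs_nonneg _)
    linarith
  calc volume {y : ℝ | |f.eval y| < t * η ^ D}
      ≤ volume (⋃ r ∈ g.roots.toFinset, Ioo (r.re - η) (r.re + η)) := measure_mono hsub
    _ ≤ ∑ r ∈ g.roots.toFinset, volume (Ioo (r.re - η) (r.re + η)) :=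
        measure_biUnion_finset_le _ _
    _ = ∑ r ∈ g.roots.toFinset, ENNReal.ofReal (2 * η) := by
        refine Finset.sum_congr rfl fun r _ => ?_
        rw [Real.volume_Ioo]
        congr 1
        ring
    _ = g.roots.toFinset.card • ENNReal.ofReal (2 * η) := by rw [Finset.sum_const]
    _ ≤ D • ENNReal.ofReal (2 * η) := by
        apply nsmul_le_nsmul_left zero_le
        refine (Multiset.toFinset_card_le _).trans ?_
        rw [hcard]
        exact hD
    _ = ENNReal.ofReal (2 * D * η) := by
        rw [nsmul_eq_mul, ← ENNReal.ofReal_natCast, ← ENNReal.ofReal_mul (Nat.cast_nonneg _)]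
        congr 1
        ring

theorem aeval_cons {N : ℕ} (s : Fin N → ℝ) (y : ℝ) (Q : MvPolynomial (Fin (N + 1)) ℤ) :
    MvPolynomial.aeval (Fin.cons y s : Fin (N + 1) → ℝ) Q =
      Polynomial.eval y (Polynomial.map ((MvPolynomial.aeval s : MvPolynomial (Fin N) ℤ →ₐ[ℤ] ℝ) :
        MvPolynomial (Fin N) ℤ →+* ℝ) (MvPolynomial.finSuccEquiv ℤ N Q)) := by
  have h : ((MvPolynomial.aeval (Fin.cons y s : Fin (N + 1) → ℝ) :
      MvPolynomial (Fin (N + 1)) ℤ →ₐ[ℤ] ℝ) : MvPolynomial (Fin (N + 1)) ℤ →+* ℝ) =
      (Polynomial.evalRingHom y).comp ((Polynomial.mapRingHom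
        ((MvPolynomial.aeval s : MvPolynomial (Fin N) ℤ →ₐ[ℤ] ℝ) :
          MvPolynomial (Fin N) ℤ →+* ℝ)).comp
        ((MvPolynomial.finSuccEquiv ℤ N : MvPolynomial (Fin (N + 1)) ℤ →+*
          Polynomial (MvPolynomial (Fin N) ℤ)))) := by
    apply MvPolynomial.ringHom_ext
    · intro r
      simp
    · intro i
      refine Fin.cases ?_ (fun j => ?_) i
      · simp [MvPolynomial.finSuccEquiv_X_zero]
      · simp [MvPolynomial.finSuccEquiv_X_succ]
  exact DFunLike.congr_fun h Q

theorem cont_aeval {N : ℕ} (Q : MvPolynomial (Fin N) ℤ) :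
    Continuous fun x : Fin N → ℝ => MvPolynomial.aeval x Q := by
  have : (fun x : Fin N → ℝ => MvPolynomial.aeval x Q) =
      fun x => MvPolynomial.eval x (MvPolynomial.map (algebraMap ℤ ℝ) Q) := by
    funext x
    rw [MvPolynomial.aeval_def, MvPolynomial.eval₂_eq_eval_map]
  rw [this]
  exact MvPolynomial.continuous_eval _

/-- The box. -/
def box (N : ℕ) (R : ℝ) : Set (Fin N → ℝ) := {x | ∀ i, |x i| ≤ R}

theorem box_closed (N : ℕ) (R : ℝ) : IsClosed (box N R) := by
  have : box N R = ⋂ i, {x | |x i| ≤ R} := by ext; simp [box]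
  rw [this]
  exact isClosed_iInter fun i => isClosed_le (by fun_prop) continuous_const

theorem vol_box (N : ℕ) (R : ℝ) : volume (box N R) = ENNReal.ofReal (2 * R) ^ N := by
  have : box N R = Set.pi univ fun _ => Icc (-R) R := by
    ext x
    simp only [box, mem_ofPred_eq, mem_pi, mem_univ, true_implies, mem_Icc, abs_le]
  rw [this, volume_pi_pi]
  simp only [Real.volume_Icc, Finset.prod_const, Finset.card_univ, Fintype.card_fin]
  congr 2
  ring

/-- Several variables. -/
theorem sublevel (D : ℕ) (R η : ℝ) (hR : 0 < R) (hη : 0 < η) (hη1 : η ≤ 1) : ∀ (N : ℕ)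
    (Q : MvPolynomial (Fin N) ℤ), Q ≠ 0 → (∀ i, Q.degreeOf i ≤ D) →
    volume (box N R ∩ {x | |MvPolynomial.aeval x Q| < η ^ (D * N)}) ≤
      ENNReal.ofReal (N * (2 * D * η) * (2 * R + 1) ^ N) := by
  intro N
  induction N with
  | zero =>
    intro Q hQ _
    have h1 : (box 0 R ∩ {x | |MvPolynomial.aeval x Q| < η ^ (D * 0)}) = ∅ := by
      rw [Set.eq_empty_iff_forall_notMem]
      rintro x ⟨-, hx⟩
      rw [mem_ofPred_eq, mul_zero, pow_zero] at hx
      have h2 : Q = MvPolynomial.C (MvPolynomial.coeff 0 Q) := MvPolynomial.eq_C_of_isEmpty Q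
      rw [h2, MvPolynomial.aeval_C] at hx
      have h3 : MvPolynomial.coeff 0 Q ≠ 0 := by
        intro h4
        rw [h4, map_zero] at h2
        exact hQ h2
      have h4 : (1 : ℝ) ≤ |((MvPolynomial.coeff 0 Q : ℤ) : ℝ)| := by
        rw [← Int.cast_abs]
        exact_mod_cast Int.one_le_abs h3
      have h5 : algebraMap ℤ ℝ (MvPolynomial.coeff 0 Q) = ((MvPolynomial.coeff 0 Q : ℤ) : ℝ) := rfl
      rw [h5] at hx
      linarith
    rw [h1, measure_empty]
    exact zero_le
  | succ N ih =>
    intro Q hQ hdeg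
    set F := MvPolynomial.finSuccEquiv ℤ N Q with hF
    have hF0 : F ≠ 0 := by
      rw [hF]
      exact (EmbeddingLike.map_ne_zero_iff).2 hQ
    set c := F.leadingCoeff with hc
    have hc0 : c ≠ 0 := Polynomial.leadingCoeff_ne_zero.2 hF0
    have hcdeg : ∀ i, c.degreeOf i ≤ D := fun i =>
      (MvPolynomial.degreeOf_coeff_finSuccEquiv Q i _).trans (hdeg i.succ)
    have hFdeg : F.natDegree ≤ D := by
      rw [hF, MvPolynomial.natDegree_finSuccEquiv]
      exact hdeg 0
    have hih := ih c hc0 hcdeg
    set e := MeasurableEquiv.piFinSuccAbove (fun _ : Fin (N + 1) => ℝ) 0 with he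
    have hmp : MeasurePreserving e := volume_preserving_piFinSuccAbove (fun _ => ℝ) 0
    set T : Set (ℝ × (Fin N → ℝ)) := {z | |z.1| ≤ R ∧ z.2 ∈ box N R ∧
      |MvPolynomial.aeval (Fin.cons z.1 z.2 : Fin (N + 1) → ℝ) Q| < η ^ (D * (N + 1))} with hT
    have hTm : MeasurableSet T := by
      have h1 : MeasurableSet {z : ℝ × (Fin N → ℝ) | |z.1| ≤ R} :=
        (isClosed_le (by fun_prop) continuous_const).measurableSet
      have h2 : MeasurableSet {z : ℝ × (Fin N → ℝ) | z.2 ∈ box N R} :=
        ((box_closed N R).preimage continuous_snd).measurableSet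
      have h3 : MeasurableSet {z : ℝ × (Fin N → ℝ) |
          |MvPolynomial.aeval (Fin.cons z.1 z.2 : Fin (N + 1) → ℝ) Q| < η ^ (D * (N + 1))} := by
        apply IsOpen.measurableSet
        refine isOpen_lt ?_ continuous_const
        refine ((cont_aeval Q).comp ?_).abs
        fun_prop
      exact h1.inter (h2.inter h3)
    have hsub : (box (N + 1) R ∩ {x | |MvPolynomial.aeval x Q| < η ^ (D * (N + 1))}) ⊆ e ⁻¹' T := by
      rintro x ⟨h1, h2⟩
      have h3 : (Fin.cons (e x).1 (e x).2 : Fin (N + 1) → ℝ) = x := by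
        funext i
        refine Fin.cases ?_ (fun j => ?_) i
        · rfl
        · rfl
      refine ⟨h1 0, fun i => h1 _, ?_⟩
      rw [h3]
      exact h2
    have hslice : ∀ s : Fin N → ℝ, volume ((fun y => (y, s)) ⁻¹' T) ≤
        (box N R ∩ {x | |MvPolynomial.aeval x c| < η ^ (D * N)}).indicator
          (fun _ => ENNReal.ofReal (2 * R)) s +
        (box N R).indicator (fun _ => ENNReal.ofReal (2 * D * η)) s := by
      intro s
      by_cases hs : s ∈ box N R
      · rw [indicator_of_mem hs]
        by_cases hs2 : |MvPolynomial.aeval s c| < η ^ (D * N)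
        · rw [indicator_of_mem (by exact ⟨hs, hs2⟩)]
          refine le_trans ?_ le_self_add
          have : ((fun y => (y, s)) ⁻¹' T) ⊆ Icc (-R) R := by
            rintro y ⟨h1, -⟩
            exact abs_le.1 h1
          refine (measure_mono this).trans ?_
          rw [Real.volume_Icc]
          apply ENNReal.ofReal_le_ofReal
          linarith
        · push Not at hs2
          refine le_trans ?_ le_add_self
          set f := Polynomial.map ((MvPolynomial.aeval s : MvPolynomial (Fin N) ℤ →ₐ[ℤ] ℝ) :
            MvPolynomial (Fin N) ℤ →+* ℝ) F with hf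
          have ht : 0 < η ^ (D * N) := by positivity
          have hne : ((MvPolynomial.aeval s : MvPolynomial (Fin N) ℤ →ₐ[ℤ] ℝ) :
              MvPolynomial (Fin N) ℤ →+* ℝ) F.leadingCoeff ≠ 0 := by
            intro h0
            have h1 : MvPolynomial.aeval s c = 0 := h0
            rw [h1, abs_zero] at hs2
            linarith
          have hlc : f.leadingCoeff = MvPolynomial.aeval s c := by
            rw [hf, Polynomial.leadingCoeff_map_of_leadingCoeff_ne_zero _ hne]
            rfl
          have h1 := one_dim f (η ^ (D * N)) η D ht (by rw [hlc]; exact hs2)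
            ((Polynomial.natDegree_map_le).trans hFdeg) hη hη1
          refine le_trans (measure_mono ?_) h1
          rintro y ⟨-, -, h2⟩
          rw [mem_ofPred_eq, hf, ← aeval_cons]
          rw [mul_add, mul_one, pow_add] at h2
          exact h2
      · rw [indicator_of_notMem hs, indicator_of_notMem (fun h => hs h.1)]
        have : ((fun y => (y, s)) ⁻¹' T) = ∅ := by
          rw [Set.eq_empty_iff_forall_notMem]
          rintro y ⟨-, h2, -⟩
          exact hs h2
        rw [this, measure_empty]
        exact zero_le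
    have hm1 : MeasurableSet (box N R ∩ {x | |MvPolynomial.aeval x c| < η ^ (D * N)}) :=
      (box_closed N R).measurableSet.inter
        (isOpen_lt (cont_aeval c).abs continuous_const).measurableSet
    have hm2 : MeasurableSet (box N R) := (box_closed N R).measurableSet
    calc volume (box (N + 1) R ∩ {x | |MvPolynomial.aeval x Q| < η ^ (D * (N + 1))})
        ≤ volume (e ⁻¹' T) := measure_mono hsub
      _ = volume T := hmp.measure_preimage hTm.nullMeasurableSet
      _ = ∫⁻ s, volume ((fun y => (y, s)) ⁻¹' T) := by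
          rw [Measure.volume_eq_prod, Measure.prod_apply_symm hTm]
      _ ≤ ∫⁻ s, ((box N R ∩ {x | |MvPolynomial.aeval x c| < η ^ (D * N)}).indicator
          (fun _ => ENNReal.ofReal (2 * R)) s +
          (box N R).indicator (fun _ => ENNReal.ofReal (2 * D * η)) s) := lintegral_mono hslice
      _ = ENNReal.ofReal (2 * R) *
            volume (box N R ∩ {x | |MvPolynomial.aeval x c| < η ^ (D * N)}) +
          ENNReal.ofReal (2 * D * η) * volume (box N R) := by
          rw [lintegral_add_left (measurable_const.indicator hm1),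
            lintegral_indicator hm1, lintegral_indicator hm2, setLIntegral_const,
            setLIntegral_const]
      _ ≤ ENNReal.ofReal (2 * R) * ENNReal.ofReal (N * (2 * D * η) * (2 * R + 1) ^ N) +
          ENNReal.ofReal (2 * D * η) * ENNReal.ofReal (2 * R) ^ N := by
          rw [vol_box]
          gcongr
      _ = ENNReal.ofReal (2 * R * (N * (2 * D * η) * (2 * R + 1) ^ N) +
          2 * D * η * (2 * R) ^ N) := by
          rw [← ENNReal.ofReal_pow (by positivity), ← ENNReal.ofReal_mul (by positivity),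
            ← ENNReal.ofReal_mul (by positivity), ← ENNReal.ofReal_add (by positivity)
            (by positivity)]
      _ ≤ ENNReal.ofReal (((N + 1 : ℕ) : ℝ) * (2 * D * η) * (2 * R + 1) ^ (N + 1)) := by
          apply ENNReal.ofReal_le_ofReal
          have h1 : (2 * R) ^ N ≤ (2 * R + 1) ^ N := by gcongr; linarith
          have h2 : (2 * R + 1) ^ N ≤ (2 * R + 1) ^ (N + 1) :=
            pow_le_pow_right₀ (by linarith) (Nat.le_succ N)
          have h3 : 2 * R * (N * (2 * D * η) * (2 * R + 1) ^ N) ≤
              (2 * R + 1) * (N * (2 * D * η) * (2 * R + 1) ^ N) := by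
            gcongr
            linarith
          have h4 : 2 * D * η * (2 * R) ^ N ≤ 2 * D * η * (2 * R + 1) ^ (N + 1) := by
            gcongr
            exact h1.trans h2
          calc 2 * R * (N * (2 * D * η) * (2 * R + 1) ^ N) + 2 * D * η * (2 * R) ^ N
              ≤ (2 * R + 1) * (N * (2 * D * η) * (2 * R + 1) ^ N) +
                2 * D * η * (2 * R + 1) ^ (N + 1) := by linarith
            _ = ((N + 1 : ℕ) : ℝ) * (2 * D * η) * (2 * R + 1) ^ (N + 1) := by
                push_cast
                ring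

end Pool.Agent.K3h17.BT
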