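import Pool.Agent.K3h17.BT.Rep

set_option autoImplicit false

/-!
In almost every polygon the unfolded vertices are not too close to each other and not too close to
being collinear, unless they coincide or are collinear.
-/

namespace Pool.Agent.K3h17.BT

open MeasureTheory Set Complex Filter Pool.Agent.W780.PG Pool.Agent.W780.BB
  Pool.Agent.TH225.BL Pool.Agent.K3h17.BK

open scoped ComplexConjugate Real

variable {n : ℕ}

/-- The words of length at most `m`. -/
noncomputable def Wm (n m : ℕ) : Finset (List (Fin (n + 3))) :=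
  (List.finite_length_le (Fin (n + 3)) m).toFinset

theorem mem_Wm {m : ℕ} {w : List (Fin (n + 3))} : w ∈ Wm n m ↔ w.length ≤ m := by
  unfold Wm
  rw [Set.Finite.mem_toFinset, mem_ofPred_eq]

open Classical in
theorem card_Wm (n m : ℕ) : (Wm n m).card ≤ (2 * (n + 3)) ^ m := by
  induction m with
  | zero =>
    rw [pow_zero]
    have : Wm n 0 ⊆ {[]} := by
      intro w hw
      rw [mem_Wm] at hw
      rw [Finset.mem_singleton]
      exact List.length_eq_zero_iff.1 (Nat.le_zero.1 hw)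
    exact (Finset.card_le_card this).trans (by simp)
  | succ m ih =>
    have hsub : Wm n (m + 1) ⊆ insert [] (((Finset.univ : Finset (Fin (n + 3))) ×ˢ Wm n m).image
        fun x => x.1 :: x.2) := by
      intro w hw
      rw [mem_Wm] at hw
      cases w with
      | nil => exact Finset.mem_insert_self _ _
      | cons i w =>
        rw [List.length_cons] at hw
        apply Finset.mem_insert_of_mem
        rw [Finset.mem_image]
        refine ⟨(i, w), ?_, rfl⟩
        rw [Finset.mem_product]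
        exact ⟨Finset.mem_univ _, mem_Wm.2 (by simp only []; omega)⟩
    have h1 := Finset.card_le_card hsub
    have h2 := Finset.card_insert_le [] (((Finset.univ : Finset (Fin (n + 3))) ×ˢ Wm n m).image
        fun x => x.1 :: x.2)
    have h3 : (((Finset.univ : Finset (Fin (n + 3))) ×ˢ Wm n m).image
        fun x => x.1 :: x.2).card ≤ (n + 3) * (Wm n m).card := by
      refine Finset.card_image_le.trans ?_
      rw [Finset.card_product, Finset.card_univ, Fintype.card_fin]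
    have h4 : 1 ≤ (2 * (n + 3)) ^ m := Nat.one_le_pow _ _ (by omega)
    have h5 : (n + 3) * (Wm n m).card ≤ (n + 3) * (2 * (n + 3)) ^ m := Nat.mul_le_mul_left _ ih
    rw [pow_succ]
    nlinarith

/-- The index set of the functions. -/
abbrev Idx (n : ℕ) := (List (Fin (n + 3)) × List (Fin (n + 3)) × List (Fin (n + 3))) ×
  (Fin (n + 3) × Fin (n + 3) × Fin (n + 3)) × Bool

/-- The indices of level `m`. -/
noncomputable def Im (n m : ℕ) : Finset (Idx n) :=
  (Wm n m ×ˢ Wm n m ×ˢ Wm n m) ×ˢ (Finset.univ : Finset (Fin (n + 3) × Fin (n + 3) × Fin (n + 3))) ×ˢ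
    (Finset.univ : Finset Bool)

/-- The functions. -/
noncomputable def ff (t : Idx n) (p : Fin (n + 3) → ℂ) : ℝ :=
  if t.2.2 then St t.1.1 t.1.2.1 t.1.2.2 t.2.1.1 t.2.1.2.1 t.2.1.2.2 p
  else Sp t.1.1 t.1.2.1 t.2.1.1 t.2.1.2.1 p

/-- The base of the number of indices. -/
def EE (n : ℕ) : ℕ := (2 * (n + 3)) ^ 3

theorem card_Im (n m : ℕ) : (Im n m).card ≤ 2 * EE n ^ (m + 1) := by
  unfold Im EE
  rw [Finset.card_product, Finset.card_product, Finset.card_product, Finset.card_product,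
    Finset.card_univ, Finset.card_univ, Fintype.card_bool, Fintype.card_prod, Fintype.card_prod,
    Fintype.card_fin]
  have h1 := card_Wm n m
  have h2 : (Wm n m).card * ((Wm n m).card * (Wm n m).card) ≤
      (2 * (n + 3)) ^ m * ((2 * (n + 3)) ^ m * (2 * (n + 3)) ^ m) := by gcongr
  have h3 : (n + 3) * ((n + 3) * (n + 3)) ≤ (2 * (n + 3)) ^ 3 := by
    have : (2 * (n + 3)) ^ 3 = 8 * ((n + 3) * ((n + 3) * (n + 3))) := by ring
    omega
  calc (Wm n m).card * ((Wm n m).card * (Wm n m).card) * ((n + 3) * ((n + 3) * (n + 3)) * 2)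
      ≤ ((2 * (n + 3)) ^ m * ((2 * (n + 3)) ^ m * (2 * (n + 3)) ^ m)) * ((2 * (n + 3)) ^ 3 * 2) := by
        gcongr
    _ = 2 * ((2 * (n + 3)) ^ 3) ^ (m + 1) := by
        generalize 2 * (n + 3) = q
        ring

theorem RP_ff {m : ℕ} {t : Idx n} (ht : t ∈ Im n m) : RP (8 * m + 2) (ff t) := by
  unfold Im at ht
  simp only [Finset.mem_product, mem_Wm] at ht
  obtain ⟨⟨h1, h2, h3⟩, -⟩ := ht
  by_cases hb : t.2.2
  · have : ff t = St t.1.1 t.1.2.1 t.1.2.2 t.2.1.1 t.2.1.2.1 t.2.1.2.2 := by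
      funext p
      unfold ff
      rw [if_pos hb]
    rw [this]
    exact RP_St _ _ _ _ _ _ m h1 h2 h3
  · have : ff t = Sp t.1.1 t.1.2.1 t.2.1.1 t.2.1.2.1 := by
      funext p
      unfold ff
      rw [if_neg hb]
    rw [this]
    exact RP_Sp _ _ _ _ m h1 h2

/-- The threshold. -/
noncomputable def et (n m : ℕ) : ℝ := (1 / (2 * (EE n : ℝ))) ^ (m + 1)

theorem EE_pos (n : ℕ) : (1 : ℝ) ≤ EE n := by
  unfold EE
  push_cast
  apply one_le_pow₀
  have : (0 : ℝ) ≤ n := n.cast_nonneg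
  linarith

theorem et_pos (n m : ℕ) : 0 < et n m := by
  unfold et
  have := EE_pos n
  positivity

theorem et_le (n m : ℕ) : et n m ≤ 1 := by
  unfold et
  have := EE_pos n
  apply pow_le_one₀ (by positivity)
  rw [div_le_one (by positivity)]
  linarith

open Classical in
/-- The bad set of level `m`. -/
noncomputable def bad (n m : ℕ) (R : ℝ) : Set (Fin (n + 3) → ℂ) :=
  ⋃ t ∈ (Im n m).filter (fun t => ∃ z, ff t z ≠ 0),
    (cbox (n + 3) R ∩ {z | |ff t z| < et n m ^ ((8 * m + 2) * ((n + 3) + (n + 3)))})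

open Classical in
theorem bad_meas (n m : ℕ) (R : ℝ) (hR : 0 < R) : volume (bad n m R) ≤
    ENNReal.ofReal ((8 * (n + 3) * (2 * R + 1) ^ ((n + 3) + (n + 3))) *
      (((8 : ℝ) * m + 2) * (1 / 2) ^ (m + 1))) := by
  have hE := EE_pos n
  set b := ENNReal.ofReal ((((n + 3) + (n + 3) : ℕ) : ℝ) * (2 * ((8 * m + 2 : ℕ) : ℝ) * et n m) *
    (2 * R + 1) ^ ((n + 3) + (n + 3))) with hb
  calc volume (bad n m R) ≤ ∑ t ∈ (Im n m).filter (fun t => ∃ z, ff t z ≠ 0), volume
        (cbox (n + 3) R ∩ {z | |ff t z| < et n m ^ ((8 * m + 2) * ((n + 3) + (n + 3)))}) :=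
        measure_biUnion_finset_le _ _
    _ ≤ ∑ t ∈ (Im n m).filter (fun t => ∃ z, ff t z ≠ 0), b := by
        refine Finset.sum_le_sum fun t ht => ?_
        rw [Finset.mem_filter] at ht
        exact (RP_ff ht.1).sublevel ht.2 R (et n m) hR (et_pos n m) (et_le n m)
    _ = ((Im n m).filter (fun t => ∃ z, ff t z ≠ 0)).card • b := by rw [Finset.sum_const]
    _ ≤ (2 * EE n ^ (m + 1)) • b := by
        apply nsmul_le_nsmul_left zero_le
        exact (Finset.card_filter_le _ _).trans (card_Im n m)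
    _ = ENNReal.ofReal ((8 * (n + 3) * (2 * R + 1) ^ ((n + 3) + (n + 3))) *
      (((8 : ℝ) * m + 2) * (1 / 2) ^ (m + 1))) := by
        rw [nsmul_eq_mul, hb, ← ENNReal.ofReal_natCast, ← ENNReal.ofReal_mul (Nat.cast_nonneg _)]
        congr 1
        unfold et
        have h1 : (1 / (2 * (EE n : ℝ))) ^ (m + 1) * (EE n : ℝ) ^ (m + 1) = (1 / 2) ^ (m + 1) := by
          rw [← mul_pow]
          congr 1
          field_simp
        push_cast
        calc _ = (8 * ((n : ℝ) + 3) * (2 * R + 1) ^ ((n + 3) + (n + 3))) * (((8 : ℝ) * m + 2) *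
              ((1 / (2 * (EE n : ℝ))) ^ (m + 1) * (EE n : ℝ) ^ (m + 1))) := by ring
          _ = _ := by rw [h1]

theorem summable_aux : Summable fun m : ℕ => (((8 : ℝ) * m + 2) * (1 / 2) ^ (m + 1)) := by
  have h1 : Summable fun m : ℕ => ((m : ℝ) ^ 1 * (1 / 2 : ℝ) ^ m) :=
    summable_pow_mul_geometric_of_norm_lt_one 1 (by norm_num)
  have h2 : Summable fun m : ℕ => ((1 / 2 : ℝ) ^ m) :=
    summable_geometric_of_norm_lt_one (by norm_num)
  have h3 := (h1.mul_left 4).add h2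
  refine h3.congr fun m => ?_
  rw [pow_succ]
  ring

theorem ae_notbad (n : ℕ) (R : ℝ) (hR : 0 < R) :
    ∀ᵐ p : Fin (n + 3) → ℂ, ∀ᶠ m in atTop, p ∉ bad n m R := by
  apply ae_eventually_notMem
  have h1 : Summable fun m : ℕ => ((8 * (n + 3) * (2 * R + 1) ^ ((n + 3) + (n + 3))) *
      (((8 : ℝ) * m + 2) * (1 / 2) ^ (m + 1))) := summable_aux.mul_left _
  exact ne_top_of_le_ne_top h1.tsum_ofReal_ne_top (ENNReal.tsum_le_tsum fun m => bad_meas n m R hR)

/-- The typical polygons. -/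
def Typical (p : Fin (n + 3) → ℂ) : Prop :=
  ∃ C : ℝ, 0 < C ∧ ∃ m₀ : ℕ, ∀ m ≥ m₀, ∀ a ∈ VF p m, ∀ b ∈ VF p m,
    (a ≠ b → Real.exp (-(C * ((m : ℝ) + 1) ^ 2)) ≤ ‖a - b‖) ∧
    ∀ c ∈ VF p m, lft a b c ≠ 0 → Real.exp (-(C * ((m : ℝ) + 1) ^ 2)) ≤ |lft a b c|

theorem zeta_bound (n m : ℕ) (B : ℝ) (hB : 1 ≤ B) :
    Real.exp (-((16 * (n + 3) * Real.log (2 * EE n) + 4 * Real.log B + 1) * ((m : ℝ) + 1) ^ 2)) ≤
      et n m ^ ((8 * m + 2) * ((n + 3) + (n + 3))) / B ^ (4 * m) := by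
  have hE := EE_pos n
  have hB0 : 0 < B := by linarith
  have hm : (0 : ℝ) ≤ m := m.cast_nonneg
  have hn : (0 : ℝ) ≤ n := n.cast_nonneg
  have hL1 : 0 ≤ Real.log (2 * EE n) := Real.log_nonneg (by linarith)
  have hL2 : 0 ≤ Real.log B := Real.log_nonneg hB
  have h1 : et n m = Real.exp (-(((m : ℝ) + 1) * Real.log (2 * EE n))) := by
    unfold et
    rw [one_div, inv_pow, Real.exp_neg]
    congr 1
    have : ((m : ℝ) + 1) * Real.log (2 * EE n) = ((m + 1 : ℕ) : ℝ) * Real.log (2 * EE n) := by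
      push_cast
      ring
    rw [this, Real.exp_nat_mul, Real.exp_log (by positivity)]
  have h2 : B ^ (4 * m) = Real.exp (((4 * m : ℕ) : ℝ) * Real.log B) := by
    rw [Real.exp_nat_mul, Real.exp_log hB0]
  rw [h1, h2, ← Real.exp_nat_mul, ← Real.exp_sub]
  apply Real.exp_le_exp.2
  push_cast
  have e1 : (8 * (m : ℝ) + 2) * ((n : ℝ) + 3 + ((n : ℝ) + 3)) *
      (((m : ℝ) + 1) * Real.log (2 * EE n)) ≤
      16 * (n + 3) * Real.log (2 * EE n) * ((m : ℝ) + 1) ^ 2 := by
    have : (8 * (m : ℝ) + 2) ≤ 8 * ((m : ℝ) + 1) := by linarith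
    calc (8 * (m : ℝ) + 2) * ((n : ℝ) + 3 + ((n : ℝ) + 3)) *
      (((m : ℝ) + 1) * Real.log (2 * EE n)) ≤ (8 * ((m : ℝ) + 1)) *
          ((n : ℝ) + 3 + ((n : ℝ) + 3)) * (((m : ℝ) + 1) * Real.log (2 * EE n)) := by gcongr
      _ = _ := by ring
  have e2 : 4 * (m : ℝ) * Real.log B ≤ 4 * Real.log B * ((m : ℝ) + 1) ^ 2 := by
    have : (m : ℝ) ≤ ((m : ℝ) + 1) ^ 2 := by nlinarith
    calc 4 * (m : ℝ) * Real.log B = 4 * Real.log B * m := by ring
      _ ≤ _ := by gcongr
  have e3 : 0 ≤ ((m : ℝ) + 1) ^ 2 := sq_nonneg _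
  nlinarith

theorem ae_typical (n : ℕ) : ∀ᵐ p : Fin (n + 3) → ℂ, IsConvexPolygon p → Typical p := by
  have hall : ∀ᵐ p : Fin (n + 3) → ℂ, ∀ R : ℕ, 0 < R → ∀ᶠ m in atTop, p ∉ bad n m R := by
    rw [ae_all_iff]
    intro R
    by_cases hR : 0 < R
    · filter_upwards [ae_notbad n R (by exact_mod_cast hR)] with p hp _
      exact hp
    · exact Eventually.of_forall fun p h => absurd h hR
  filter_upwards [hall] with p hp hconv
  obtain ⟨R, hR⟩ := exists_nat_ge (Rb p)
  have hR' : Rb p ≤ ((R + 1 : ℕ) : ℝ) := hR.trans (by push_cast; linarith)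
  obtain ⟨m₀, hm₀⟩ := eventually_atTop.1 (hp (R + 1) (Nat.succ_pos R))
  have hbox : p ∈ cbox (n + 3) ((R + 1 : ℕ) : ℝ) := mem_cbox fun i => (le_Rb i).trans hR'
  have hB1 := Bg_one p
  have hB0 : 0 < Bg p := by linarith
  have hn : (0 : ℝ) ≤ n := n.cast_nonneg
  have hE := EE_pos n
  have hL1 : 0 ≤ Real.log (2 * EE n) := Real.log_nonneg (by linarith)
  have hL2 : 0 ≤ Real.log (Bg p) := Real.log_nonneg hB1
  refine ⟨16 * (n + 3) * Real.log (2 * EE n) + 4 * Real.log (Bg p) + 1, by positivity, m₀,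
    fun m hm a ha b hb => ?_⟩
  have hz := zeta_bound n m (Bg p) hB1
  set ζ := Real.exp (-((16 * (n + 3) * Real.log (2 * EE n) + 4 * Real.log (Bg p) + 1) *
    ((m : ℝ) + 1) ^ 2)) with hζ
  set Θ := et n m ^ ((8 * m + 2) * ((n + 3) + (n + 3))) with hΘ
  have hnot := hm₀ m hm
  have hgood : ∀ t ∈ Im n m, ff t p ≠ 0 → Θ ≤ |ff t p| := by
    intro t ht hne
    by_contra hcon
    push Not at hcon
    apply hnot
    unfold bad
    simp only [mem_iUnion]
    exact ⟨t, by classical exact Finset.mem_filter.2 ⟨ht, p, hne⟩, hbox, hcon⟩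
  have hmem : ∀ (u v w : List (Fin (n + 3))) (j k l : Fin (n + 3)) (c : Bool), u.length ≤ m →
      v.length ≤ m → w.length ≤ m → (((u, v, w), (j, k, l), c) : Idx n) ∈ Im n m := by
    intro u v w j k l c h1 h2 h3
    unfold Im
    simp only [Finset.mem_product, mem_Wm, Finset.mem_univ, and_true]
    exact ⟨h1, h2, h3⟩
  obtain ⟨u, hu, j, rfl⟩ := VF_word p m a ha
  obtain ⟨v, hv, k, rfl⟩ := VF_word p m b hb
  have hGu := Gw_pos hconv u
  have hGv := Gw_pos hconv v
  have hGu' := Gw_le p u hu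
  have hGv' := Gw_le p v hv
  constructor
  · intro hne
    have hS : Sp u v j k p ≠ 0 := by
      rw [Sp_eq]
      have : 0 < ‖uf p u (p j) - uf p v (p k)‖ := norm_pos_iff.2 (sub_ne_zero.2 hne)
      positivity
    have h1 := hgood _ (hmem u v u j k j false hu hv hu) hS
    have h2 : ff (((u, v, u), (j, k, j), false) : Idx n) p = Sp u v j k p := rfl
    rw [h2, Sp_eq, abs_of_nonneg (by positivity)] at h1
    set D := ‖uf p u (p j) - uf p v (p k)‖ with hD
    have hD0 : 0 ≤ D := norm_nonneg _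
    have h3 : (Gw p u * Gw p v) ^ 2 ≤ Bg p ^ (4 * m) := by
      calc (Gw p u * Gw p v) ^ 2 ≤ (Bg p ^ m * Bg p ^ m) ^ 2 := by gcongr
        _ = Bg p ^ (4 * m) := by rw [← pow_add, ← pow_mul]; congr 1; ring
    have h4 : Θ ≤ Bg p ^ (4 * m) * D ^ 2 := h1.trans (by gcongr)
    have h5 : Θ / Bg p ^ (4 * m) ≤ D ^ 2 := by
      rw [div_le_iff₀ (by positivity)]
      linarith
    have h6 : ζ ≤ D ^ 2 := hz.trans h5
    rcases le_total 1 D with h | h
    · refine le_trans ?_ h
      rw [hζ]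
      apply Real.exp_le_one_iff.2
      have : 0 ≤ (16 * (n + 3) * Real.log (2 * EE n) + 4 * Real.log (Bg p) + 1) *
        ((m : ℝ) + 1) ^ 2 := by positivity
      linarith
    · nlinarith
  · intro c hc hne
    obtain ⟨w, hw, l, rfl⟩ := VF_word p m c hc
    have hGw := Gw_pos hconv w
    have hGw' := Gw_le p w hw
    have hS : St u v w j k l p ≠ 0 := by
      rw [St_eq]
      exact mul_ne_zero (by positivity) hne
    have h1 := hgood _ (hmem u v w j k l true hu hv hw) hS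
    have h2 : ff (((u, v, w), (j, k, l), true) : Idx n) p = St u v w j k l p := rfl
    rw [h2, St_eq, abs_mul, abs_of_pos (by positivity : 0 < Gw p u * Gw p v * (Gw p u * Gw p w))]
      at h1
    set D := |lft (uf p u (p j)) (uf p v (p k)) (uf p w (p l))| with hD
    have hD0 : 0 ≤ D := abs_nonneg _
    have h3 : Gw p u * Gw p v * (Gw p u * Gw p w) ≤ Bg p ^ (4 * m) := by
      calc Gw p u * Gw p v * (Gw p u * Gw p w) ≤ Bg p ^ m * Bg p ^ m * (Bg p ^ m * Bg p ^ m) := by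
            gcongr
        _ = Bg p ^ (4 * m) := by rw [← pow_add, ← pow_add]; congr 1; ring
    have h4 : Θ ≤ Bg p ^ (4 * m) * D := h1.trans (by gcongr)
    have h5 : Θ / Bg p ^ (4 * m) ≤ D := by
      rw [div_le_iff₀ (by positivity)]
      linarith
    exact hz.trans h5

end Pool.Agent.K3h17.BT
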